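import Pool.Agent.Q224.EB.Enc
import Pool.Agent.Y669.EX.Ann

/-!
# Edge Blocking: polynomial time reductions, and the exponential time algorithm
-/

set_option autoImplicit false

namespace Pool.Agent.Q224.EB

open Turing Pool.Agent.NPC Pool.Agent.Y669.EX
open Pool.Agent.NPC.ANN (Forces rl pm us up ok3 Lb Bd uPoly_Bd poly_bl)
open Pool.Agent.H820R2.SS

/-! ### The reduction -/

theorem poly_okL {α : Type} [TEnc α] {M : α → ARM} {z : α → Lb} (hM : NPC.Poly M)
    (hz : NPC.Poly z) : NPC.Poly (fun x => okL (M x) (z x)) := by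
  unfold okL
  fun_prop

theorem poly_lL {α : Type} [TEnc α] {M : α → ARM} {z z' : α → Lb} (hM : NPC.Poly M)
    (hz : NPC.Poly z) (hz' : NPC.Poly z') : NPC.Poly (fun x => lL (M x) (z x) (z' x)) := by
  unfold lL
  fun_prop

theorem poly_rL {α : Type} [TEnc α] {M : α → ARM} {z z' : α → Lb} (hM : NPC.Poly M)
    (hz : NPC.Poly z) (hz' : NPC.Poly z') : NPC.Poly (fun x => rL (M x) (z x) (z' x)) := by
  unfold rL
  fun_prop

theorem poly_vs : NPC.Poly (fun M : ARM => vs M) := by
  have h1 : NPC.Poly (fun M : ARM => List.range (Bd M)) := uPoly_Bd.range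
  have h2 : NPC.Poly (fun M : ARM => ((List.range 11) ×ˢ ((List.range (Bd M)) ×ˢ
      ((List.range (Bd M)) ×ˢ (List.range (Bd M)))) : List Lb)) := by
    fun_prop
  unfold vs
  refine NPC.Poly.filter h2 ?_
  exact poly_okL (M := fun p : ARM × Lb => p.1) (z := fun p => p.2) (by fun_prop) (by fun_prop)

theorem poly_edg {t : ARM → Lb → Lb → Bool}
    (ht : NPC.Poly (fun p : ARM × (Lb × Lb) => t p.1 p.2.1 p.2.2)) :
    NPC.Poly (fun M : ARM => edg (vs M) (t M)) := by
  have h0 := poly_vs
  have h1 : NPC.Poly (fun M : ARM => List.range (vs M).length) := (UPoly.length poly_vs).range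
  have h2 : NPC.Poly (fun M : ARM => ((List.range (vs M).length) ×ˢ (List.range (vs M).length) :
      List (ℕ × ℕ))) := by
    fun_prop
  unfold edg
  refine NPC.Poly.filter h2 ?_
  have h3 : NPC.Poly (fun p : ARM × (ℕ × ℕ) => vs p.1) := h0.comp (NPC.Poly.fst NPC.Poly.id)
  exact ht.comp (f := fun p : ARM × (ℕ × ℕ) => (p.1, ((vs p.1).getD p.2.1 (0, 0, 0, 0),
    (vs p.1).getD p.2.2 (0, 0, 0, 0)))) (by fun_prop)

theorem poly_inst (t : Bool) (c : ℕ) : NPC.Poly (fun M : ARM => inst t c M) := by
  have h0 := poly_vs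
  have h1 : NPC.Poly (fun M : ARM => edg (vs M) (lL M)) := by
    refine poly_edg (t := fun M => lL M) ?_
    exact poly_lL (M := fun p : ARM × (Lb × Lb) => p.1) (z := fun p => p.2.1)
      (z' := fun p => p.2.2) (by fun_prop) (by fun_prop) (by fun_prop)
  have h2 : NPC.Poly (fun M : ARM => edg (vs M) (rL M)) := by
    refine poly_edg (t := fun M => rL M) ?_
    exact poly_rL (M := fun p : ARM × (Lb × Lb) => p.1) (z := fun p => p.2.1)
      (z' := fun p => p.2.2) (by fun_prop) (by fun_prop) (by fun_prop)
  have h3 : NPC.Poly (fun M : ARM => edg (vs M) (lL M) ++ edg (vs M) (rL M)) :=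
    NPC.Poly.append h1 h2
  have h4 : NPC.Poly (fun M : ARM => (vs M).map (fun z => decide (z.1 = c) ||
      (decide (z.1 = 4) || (decide (z.1 = 9) || (decide (z.1 = 10) &&
        decide (z.2.2.1 = 0)))))) := by
    refine NPC.Poly.map (F := fun (_ : ARM) (z : Lb) => decide (z.1 = c) ||
      (decide (z.1 = 4) || (decide (z.1 = 9) || (decide (z.1 = 10) &&
        decide (z.2.2.1 = 0))))) h0 ?_
    fun_prop
  exact NPC.Poly.pair (NPC.Poly.const t) (NPC.Poly.pair h3 (NPC.Poly.pair h1
    (NPC.Poly.pair h2 h4)))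

/-! ### Hardness -/

/-- Exponential-time hardness, for the three outcomes. -/
theorem hard_of {W : Desc → Prop} (hW : W = MoverWins ∨ W = OtherWins ∨ W = Drawn)
    {q : Desc → Bool} (hq : ∀ D : Desc, Separate D → q D = true)
    {L : Set (List Bool)} (hL : InEXPTIME L) :
    Reduces L (lang (fun D : Desc => IsPosition D ∧ q D = true ∧ W D)) := by
  rcases hW with rfl | rfl | rfl
  · obtain ⟨f, h1, h2, h3⟩ := ARM578.exptime_arm (L := L) hL
    refine ⟨fun x => bits (inst true 0 (f x)), PC.toPolyTime_bits (poly_inst true 0) f h1,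
      fun x => ?_⟩
    rw [bits_mem_lang, and_iff_right (inst_isPosition _ _ _),
      and_iff_right (hq _ (inst_separate _ _ _)), MoverWins,
      inst_forces (v0 := .G) rfl (by norm_num), h3 x, ARMAcc]
    exact (win_G (h2 x) (P0_at rfl)).symm
  · obtain ⟨f, h1, h2, h3⟩ := ARM578.exptime_arm (L := L) hL
    refine ⟨fun x => bits (inst false 1 (f x)), PC.toPolyTime_bits (poly_inst false 1) f h1,
      fun x => ?_⟩
    rw [bits_mem_lang, and_iff_right (inst_isPosition _ _ _),
      and_iff_right (hq _ (inst_separate _ _ _)), OtherWins,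
      inst_forces (v0 := .A0) rfl (by norm_num), h3 x, ARMAcc]
    exact (lose_A0 (h2 x) (P0_at rfl)).symm
  · obtain ⟨f, h1, h2, h3⟩ := ARM578.exptime_arm_compl (L := L) hL
    refine ⟨fun x => bits (inst true 0 (f x)), PC.toPolyTime_bits (poly_inst true 0) f h1,
      fun x => ?_⟩
    rw [bits_mem_lang, and_iff_right (inst_isPosition _ _ _),
      and_iff_right (hq _ (inst_separate _ _ _)), Drawn, MoverWins, OtherWins,
      inst_forces (v0 := .G) rfl (by norm_num), inst_forces (v0 := .G) rfl (by norm_num)]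
    have h4 := h3 x
    rw [ARMAcc, ← win_G (h2 x) (P0_at (M := f x) (v0 := .G) rfl)] at h4
    rw [← not_iff_not, h4]
    constructor
    · intro h h'
      exact h'.1 h
    · intro h
      by_contra h'
      exact h ⟨h', (never (P0_Xr rfl)).1⟩

/-! ### The algorithm -/

/-- the placement after a move -/
def newP (P : List Bool) (u v : ℕ) : List Bool :=
  (List.range P.length).map (fun x => if x = v then true
    else if x = u then false else P.getD x false)

/-- the list of the positions after one move -/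
def nxt (D : Desc) (s : Bool × List Bool) : List (Bool × List Bool) :=
  ((if s.1 = true then edgesL D else edgesR D).filter
    (fun e => s.2.getD e.1 false && !(s.2.getD e.2 false))).map
    (fun e => (!s.1, newP s.2 e.1 e.2))

theorem mem_nxt {D : Desc} {s s' : Bool × List Bool} : s' ∈ nxt D s ↔ ∃ u v,
    s.2.getD u false = true ∧ s.2.getD v false = false ∧
    (u, v) ∈ (if s.1 = true then edgesL D else edgesR D) ∧ s' = (!s.1, newP s.2 u v) := by
  unfold nxt
  rw [List.mem_map]
  constructor
  · rintro ⟨⟨u, v⟩, he, rfl⟩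
    rw [List.mem_filter, Bool.and_eq_true, Bool.not_eq_true'] at he
    exact ⟨u, v, he.2.1, he.2.2, he.1, rfl⟩
  · rintro ⟨u, v, h1, h2, h3, rfl⟩
    refine ⟨(u, v), ?_, rfl⟩
    rw [List.mem_filter, Bool.and_eq_true, Bool.not_eq_true']
    exact ⟨h3, h1, h2⟩

theorem length_newP (P : List Bool) (u v : ℕ) : (newP P u v).length = P.length := by
  simp [newP]

theorem getD_newP {P : List Bool} {u v : ℕ} (hv : v < P.length) :
    (fun x => (newP P u v).getD x false) =
      Function.update (Function.update (fun x => P.getD x false) u false) v true := by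
  funext x
  rw [Function.update_apply, Function.update_apply]
  unfold newP
  by_cases hx : x < P.length
  · rw [List.getD_eq_getElem _ _ (by simpa using hx)]
    simp
  · rw [List.getD_eq_default _ _ (by simpa using hx)]
    rw [if_neg (by omega)]
    split_ifs
    · rfl
    · rw [List.getD_eq_default _ _ (by omega)]

/-- All edges join vertices. -/
def InRange (D : Desc) (n : ℕ) : Prop :=
  (∀ e ∈ edgesL D, e.1 < n ∧ e.2 < n) ∧ ∀ e ∈ edgesR D, e.1 < n ∧ e.2 < n

theorem forces_iff {D : Desc} {t : Bool} {P : List Bool} (hD : InRange D P.length) (w : Bool) :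
    Forces (Mv D) w (t, fun v => P.getD v false) ↔ Forces (fun s s' => s' ∈ nxt D s) w (t, P) := by
  have hr : ∀ (b : Bool) (u v : ℕ), (u, v) ∈ (if b = true then edgesL D else edgesR D) →
      v < P.length := by
    intro b u v h
    split_ifs at h with hb
    · exact (hD.1 _ h).2
    · exact (hD.2 _ h).2
  refine Forces.bisim_iff (R := fun (s : Pos ℕ) (l : Bool × List Bool) =>
    s = (l.1, fun v => l.2.getD v false) ∧ l.2.length = P.length) ?_ ?_ ⟨rfl, rfl⟩
  · rintro s ⟨b, l⟩ ⟨rfl, hl⟩ s' ⟨u, v, h1, h2, h3, rfl⟩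
    simp only at h1 h2 h3 hl
    refine ⟨(!b, newP l u v), mem_nxt.2 ⟨u, v, h1, h2, h3, rfl⟩, ?_, ?_⟩
    · simp only
      rw [getD_newP (by rw [hl]; exact hr _ _ _ h3)]
    · rw [length_newP, hl]
  · rintro s ⟨b, l⟩ ⟨rfl, hl⟩ l' hl'
    obtain ⟨u, v, h1, h2, h3, rfl⟩ := mem_nxt.1 hl'
    simp only at h1 h2 h3 hl
    refine ⟨_, ⟨u, v, h1, h2, h3, rfl⟩, ?_, ?_⟩
    · simp only
      rw [getD_newP (by rw [hl]; exact hr _ _ _ h3)]
    · rw [length_newP, hl]

/-- states: a tag and a position -/
abbrev St : Type := ℕ × (Bool × List Bool)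

/-- tags: `0` the other player wins, `1` the player to move wins, `2` one of the players wins -/
def ex (_ : Desc) (s : St) : Bool := decide (1 ≤ s.1)

/-- successors -/
def suc (D : Desc) (s : St) : List St :=
  if s.1 = 0 then (nxt D s.2).map (fun P => (1, P))
  else if s.1 = 1 then (nxt D s.2).map (fun P => (0, P))
  else [(0, s.2), (1, s.2)]

/-- the game on lists -/
abbrev LG (D : Desc) : (Bool × List Bool) → (Bool × List Bool) → Prop := fun s s' => s' ∈ nxt D s

theorem acc_of_forces {D : Desc} {w : Bool} {P : Bool × List Bool}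
    (h : Forces (LG D) w P) : Acc ex suc D (w.toNat, P) := by
  induction h with
  | @win p q h hq ih =>
    refine Acc.some (s' := (0, q)) rfl ?_ ih
    have h' : q ∈ nxt D p := h
    simp [suc, h']
  | @lose p h ih =>
    refine Acc.all rfl ?_
    intro s' hs'
    simp only [suc, Bool.toNat_false, if_true, List.mem_map] at hs'
    obtain ⟨q, hq, rfl⟩ := hs'
    exact ih q hq

theorem forces_of_acc {D : Desc} {s : St} (h : Acc ex suc D s) :
    (s.1 = 0 → Forces (LG D) false s.2) ∧
    (s.1 = 1 → Forces (LG D) true s.2) ∧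
    (s.1 = 2 → Forces (LG D) false s.2 ∨ Forces (LG D) true s.2) := by
  induction h with
  | @some s s' h hs h' ih =>
    refine ⟨fun h0 => ?_, fun h1 => ?_, fun h2 => ?_⟩
    · simp [ex, h0] at h
    · simp only [suc, h1, one_ne_zero, if_false, if_true, List.mem_map] at hs
      obtain ⟨q, hq, rfl⟩ := hs
      exact .win hq (ih.1 rfl)
    · simp only [suc, h2] at hs
      norm_num at hs
      rcases hs with rfl | rfl
      · exact Or.inl (ih.1 rfl)
      · exact Or.inr (ih.2.1 rfl)
  | @all s h h' ih =>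
    have hs0 : s.1 = 0 := by
      simp only [ex, decide_eq_false_iff_not] at h
      omega
    refine ⟨fun h0 => .lose fun q hq => ?_, fun h1 => by omega, fun h2 => by omega⟩
    have hq' : q ∈ nxt D s.2 := hq
    have := ih (1, q) (by simp [suc, h0, hq'])
    exact this.2.1 rfl

theorem acc_iff (D : Desc) (P : Bool × List Bool) :
    (Acc ex suc D (0, P) ↔ Forces (LG D) false P) ∧
    (Acc ex suc D (1, P) ↔ Forces (LG D) true P) ∧
    (Acc ex suc D (2, P) ↔ Forces (LG D) false P ∨ Forces (LG D) true P) := by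
  refine ⟨⟨fun h => (forces_of_acc h).1 rfl, fun h => acc_of_forces h⟩,
    ⟨fun h => (forces_of_acc h).2.1 rfl, fun h => acc_of_forces h⟩,
    ⟨fun h => (forces_of_acc h).2.2 rfl, ?_⟩⟩
  rintro (h | h)
  · exact Acc.some (s' := (0, P)) rfl (by simp [suc]) (acc_of_forces h)
  · exact Acc.some (s' := (1, P)) rfl (by simp [suc]) (acc_of_forces h)

/-- the length of the codes of the states -/
def mA (D : Desc) : ℕ := (10 * sz D + 40) * (10 * sz D + 40)

theorem mA_upoly : UPoly mA := by
  have h : UPoly (fun D : Desc => 10 * sz D + 40) :=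
    UPoly.add (UPoly.mul (UPoly.const 10) ((UPoly.length (NPC.Med.poly_bits (α := Desc))).congr
      fun a => by beta_reduce; rw [bits_length])) (UPoly.const 40)
  exact UPoly.mul h h

/-- the states which occur -/
def okS' (D : Desc) (s : St) : Prop := s.1 ≤ 2 ∧ s.2.2.length = (tokens D).length

theorem suc_ok (D : Desc) (s : St) (hs : okS' D s) : ∀ s' ∈ suc D s, okS' D s' := by
  have key : ∀ Q ∈ nxt D s.2, Q.2.length = (tokens D).length := by
    intro Q hQ
    obtain ⟨u, v, h1, h2, h3, rfl⟩ := mem_nxt.1 hQ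
    simp only
    rw [length_newP]
    exact hs.2
  intro s' hs'
  unfold suc at hs'
  split_ifs at hs' with c1 c2
  · obtain ⟨Q, hQ, rfl⟩ := List.mem_map.1 hs'
    exact ⟨by norm_num, key Q hQ⟩
  · obtain ⟨Q, hQ, rfl⟩ := List.mem_map.1 hs'
    exact ⟨by norm_num, key Q hQ⟩
  · simp only [List.mem_cons, List.not_mem_nil, or_false] at hs'
    rcases hs' with rfl | rfl
    · exact ⟨by norm_num, hs.2⟩
    · exact ⟨by norm_num, hs.2⟩

theorem sz_parts (D : Desc) : sz (edgesL D) ≤ sz D ∧ sz (edgesR D) ≤ sz D ∧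
    sz (tokens D) ≤ sz D := by
  obtain ⟨a, b, c, d, e⟩ := D
  rw [sz_pair, sz_pair, sz_pair, sz_pair]
  simp only [edgesL, edgesR, tokens]
  omega

theorem ok_bits (D : Desc) (s : St) (hs : okS' D s) : (bits s).length + 1 ≤ mA D := by
  obtain ⟨t, b, P⟩ := s
  obtain ⟨h1, h2⟩ := hs
  simp only at h1 h2
  obtain ⟨-, -, e3⟩ := sz_parts D
  have h5 := length_lt_sz (tokens D)
  have h6 : sz P ≤ P.length * (3 + 1) + 1 := sz_le_length_mul P _ fun o _ => sz_bool_le o
  have h7 : sz t ≤ 20 := by
    have h8 := sz_nat_le t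
    have h9 : t.size ≤ t := by
      rw [Nat.size_le]
      exact Nat.lt_two_pow_self
    omega
  have h10 := sz_bool_le b
  rw [bits_length, sz_pair, sz_pair]
  have h11 : sz P ≤ 4 * sz D + 1 := by
    rw [h2] at h6
    omega
  unfold mA
  nlinarith

theorem length_nxt (D : Desc) (s : Bool × List Bool) : (nxt D s).length ≤ sz D := by
  unfold nxt
  rw [List.length_map]
  refine (List.length_filter_le _ _).trans ?_
  obtain ⟨e1, e2, -⟩ := sz_parts D
  split_ifs
  · have := length_lt_sz (edgesL D)
    omega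
  · have := length_lt_sz (edgesR D)
    omega

theorem ok_length (D : Desc) (s : St) (_ : okS' D s) : (suc D s).length ≤ mA D := by
  have h := length_nxt D s.2
  unfold suc mA
  split_ifs
  · rw [List.length_map]
    nlinarith
  · rw [List.length_map]
    nlinarith
  · simp only [List.length_cons, List.length_nil]
    nlinarith

theorem poly_newP {α : Type} [TEnc α] {P : α → List Bool} {u v : α → ℕ}
    (hP : NPC.Poly P) (hu : NPC.Poly u) (hv : NPC.Poly v) :
    NPC.Poly (fun a => newP (P a) (u a) (v a)) := by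
  unfold newP
  have h1 : NPC.Poly (fun a => List.range (P a).length) := (UPoly.length hP).range
  fun_prop

theorem poly_edgesL : NPC.Poly (fun D : Desc => edgesL D) :=
  NPC.Poly.fst (NPC.Poly.snd (NPC.Poly.snd NPC.Poly.id))

theorem poly_edgesR : NPC.Poly (fun D : Desc => edgesR D) :=
  NPC.Poly.fst (NPC.Poly.snd (NPC.Poly.snd (NPC.Poly.snd NPC.Poly.id)))

theorem poly_tokens : NPC.Poly (fun D : Desc => tokens D) :=
  NPC.Poly.snd (NPC.Poly.snd (NPC.Poly.snd (NPC.Poly.snd NPC.Poly.id)))

theorem poly_nxt : NPC.Poly (fun p : Desc × (Bool × List Bool) => nxt p.1 p.2) := by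
  unfold nxt
  have hl : NPC.Poly (fun p : Desc × (Bool × List Bool) =>
      if p.2.1 = true then edgesL p.1 else edgesR p.1) := by
    have h1 := poly_edgesL.comp (f := fun p : Desc × (Bool × List Bool) => p.1) (by fun_prop)
    have h2 := poly_edgesR.comp (f := fun p : Desc × (Bool × List Bool) => p.1) (by fun_prop)
    fun_prop
  refine NPC.Poly.map (F := fun (p : Desc × (Bool × List Bool)) (e : ℕ × ℕ) =>
    (!p.2.1, newP p.2.2 e.1 e.2)) ?_ ?_
  · refine NPC.Poly.filter hl ?_
    fun_prop
  · refine NPC.Poly.pair (by fun_prop) (poly_newP (by fun_prop) (by fun_prop) (by fun_prop))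

theorem poly_ex : NPC.Poly (fun p : Desc × St => ex p.1 p.2) := by
  unfold ex
  fun_prop

theorem poly_suc : NPC.Poly (fun p : Desc × St => suc p.1 p.2) := by
  unfold suc
  have h : NPC.Poly (fun p : Desc × St => nxt p.1 p.2.2) :=
    poly_nxt.comp (f := fun p : Desc × St => (p.1, p.2.2)) (by fun_prop)
  fun_prop

/-! ### The test for positions -/

/-- the test for correct descriptions -/
def posB (D : Desc) : Bool :=
  ((edges D).all (fun e => decide (e.1 < (tokens D).length) &&
    (decide (e.2 < (tokens D).length) && !(decide (e.1 = e.2))))) &&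
  ((edgesL D).all (fun e => decide (e ∈ edges D)) && (edgesR D).all (fun e => decide (e ∈ edges D)))

theorem posB_iff (D : Desc) : posB D = true ↔ IsPosition D := by
  unfold posB IsPosition
  simp only [Bool.and_eq_true, List.all_eq_true, decide_eq_true_eq, Bool.not_eq_true',
    decide_eq_false_iff_not]

/-- the test for separate edges -/
def sepB (D : Desc) : Bool := (edgesL D).all (fun e => !(decide (e ∈ edgesR D)))

theorem sepB_iff (D : Desc) : sepB D = true ↔ Separate D := by
  unfold sepB Separate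
  simp only [List.all_eq_true, Bool.not_eq_true', decide_eq_false_iff_not]

theorem poly_edges : NPC.Poly (fun D : Desc => edges D) := NPC.Poly.fst (NPC.Poly.snd NPC.Poly.id)

theorem poly_posB : NPC.Poly posB := by
  unfold posB
  have h0 := poly_edges
  have h1 := poly_edgesL
  have h2 := poly_edgesR
  have h3 := poly_tokens
  refine NPC.Poly.and ?_ (NPC.Poly.and ?_ ?_)
  · refine NPC.Poly.all (l := fun D : Desc => edges D) (p := fun D e =>
      decide (e.1 < (tokens D).length) && (decide (e.2 < (tokens D).length) &&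
        !(decide (e.1 = e.2)))) h0 ?_
    have h4 := poly_tokens.comp (f := fun q : Desc × (ℕ × ℕ) => q.1) (by fun_prop)
    fun_prop
  · refine NPC.Poly.all (l := fun D : Desc => edgesL D) (p := fun D e => decide (e ∈ edges D))
      h1 ?_
    have h4 := poly_edges.comp (f := fun q : Desc × (ℕ × ℕ) => q.1) (by fun_prop)
    fun_prop
  · refine NPC.Poly.all (l := fun D : Desc => edgesR D) (p := fun D e => decide (e ∈ edges D))
      h2 ?_
    have h4 := poly_edges.comp (f := fun q : Desc × (ℕ × ℕ) => q.1) (by fun_prop)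
    fun_prop

theorem poly_sepB : NPC.Poly sepB := by
  unfold sepB
  refine NPC.Poly.all (l := fun D : Desc => edgesL D) (p := fun D e => !(decide (e ∈ edgesR D)))
      poly_edgesL ?_
  have h4 := poly_edgesR.comp (f := fun q : Desc × (ℕ × ℕ) => q.1) (by fun_prop)
  fun_prop

theorem inRange_of {D : Desc} (hD : IsPosition D) : InRange D (tokens D).length :=
  ⟨fun e he => ⟨(hD.1 e (hD.2.1 e he)).1, (hD.1 e (hD.2.1 e he)).2.1⟩,
    fun e he => ⟨(hD.1 e (hD.2.2 e he)).1, (hD.1 e (hD.2.2 e he)).2.1⟩⟩

theorem start_forces {D : Desc} (hD : IsPosition D) (w : Bool) :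
    Forces (Mv D) w (start D) ↔ Forces (LG D) w (D.1, tokens D) :=
  forces_iff (inRange_of hD) w

/-- the coded position -/
noncomputable def rd (x : List Bool) : Desc := (unbits Desc x).getD (false, [], [], [], [])

theorem poly_rd : NPC.Poly rd :=
  Poly.optGetD (g := fun _ => (false, [], [], [], [])) (poly_unbits (α := Desc)) (NPC.Poly.const _)

theorem exptime_tag (t : ℕ) (ht : t ≤ 2) (neg : Bool) {q : Desc → Bool} (hq : NPC.Poly q) :
    InEXPB (lang (fun D : Desc => IsPosition D ∧ q D = true ∧
      (Acc ex suc D (t, (D.1, tokens D)) ↔ neg = false))) := by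
  have hb : NPC.Poly (fun x : List Bool => (unbits Desc x).isSome && (posB (rd x) && q (rd x))) :=
    NPC.Poly.and (NPC.Poly.isSome poly_unbits)
      (NPC.Poly.and (poly_posB.comp poly_rd) (hq.comp poly_rd))
  have hst : NPC.Poly (fun D : Desc => ((t, (D.1, tokens D)) : St)) :=
    NPC.Poly.pair (NPC.Poly.const t) (NPC.Poly.pair (NPC.Poly.fst NPC.Poly.id) poly_tokens)
  refine inEXPB_of_acc (ok := okS') mA_upoly poly_ex poly_suc hst
    poly_rd hb ?_ suc_ok ok_bits ok_length neg ?_
  · intro x _
    exact ⟨ht, rfl⟩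
  · intro x
    rw [mem_lang_iff, Bool.and_eq_true, Bool.and_eq_true, posB_iff]
    constructor
    · rintro ⟨D, h1, h2, h2', h3⟩
      have h4 : rd x = D := by
        unfold rd
        rw [h1]
        rfl
      rw [h4, h1]
      exact ⟨⟨rfl, h2, h2'⟩, h3⟩
    · rintro ⟨⟨h1, h2, h2'⟩, h3⟩
      obtain ⟨D, hD⟩ := Option.isSome_iff_exists.1 h1
      have h4 : rd x = D := by
        unfold rd
        rw [hD]
        rfl
      rw [h4] at h2 h2' h3
      exact ⟨D, hD, h2, h2', h3⟩

theorem lang_congr {α : Type} [TEnc α] {P Q : α → Prop} (h : ∀ a, P a ↔ Q a) :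
    lang P = lang Q := by
  congr 1
  funext a
  exact propext (h a)

/-- The three outcomes. -/
theorem exp_of {W : Desc → Prop} (hW : W = MoverWins ∨ W = OtherWins ∨ W = Drawn)
    {q : Desc → Bool} (hq : NPC.Poly q) :
    InEXPB (lang (fun D : Desc => IsPosition D ∧ q D = true ∧ W D)) := by
  rcases hW with rfl | rfl | rfl
  · rw [lang_congr (Q := fun D : Desc => IsPosition D ∧ q D = true ∧
      (Acc ex suc D (1, (D.1, tokens D)) ↔
      false = false)) fun D => and_congr_right fun hD => and_congr_right fun _ => ?_]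
    · exact exptime_tag 1 (by norm_num) false hq
    · unfold MoverWins
      rw [start_forces hD, (acc_iff D (D.1, tokens D)).2.1]
      simp
  · rw [lang_congr (Q := fun D : Desc => IsPosition D ∧ q D = true ∧
      (Acc ex suc D (0, (D.1, tokens D)) ↔
      false = false)) fun D => and_congr_right fun hD => and_congr_right fun _ => ?_]
    · exact exptime_tag 0 (by norm_num) false hq
    · unfold OtherWins
      rw [start_forces hD, (acc_iff D (D.1, tokens D)).1]
      simp
  · rw [lang_congr (Q := fun D : Desc => IsPosition D ∧ q D = true ∧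
      (Acc ex suc D (2, (D.1, tokens D)) ↔
      true = false)) fun D => and_congr_right fun hD => and_congr_right fun _ => ?_]
    · exact exptime_tag 2 le_rfl true hq
    · unfold Drawn MoverWins OtherWins
      rw [start_forces hD, start_forces hD, (acc_iff D (D.1, tokens D)).2.2]
      simp only [Bool.true_eq_false, iff_false, not_or]
      tauto

end Pool.Agent.Q224.EB
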