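import Pool.Agent.Q224.EB.Defs
import Pool.Agent.H578R2.ANN.Main

/-!
# Edge Blocking: the board of an alternating register machine
-/

namespace Pool.Agent.Q224.EB

open Pool.Agent.NPC.ANN (Forces rl pm us up ok3 ok3_iff rl_mem pm_mem up_lt upd_take upd_nil
  upd_take_update)
open Pool.Agent.H820R2.SS

/-- Vertices. -/
inductive V : Type
  | G | A0 | W0 | W1 | l0 | l1
  | R (r : ℕ)
  | U (r i k : ℕ)
  | S (r i k : ℕ)
  | x (j : ℕ)
  | y (j : ℕ) (b : Bool)
  deriving DecidableEq

/-- the vertices which are used -/
def ok (M : ARM) : V → Bool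
  | .R r => decide (r < M.2.2.length)
  | .U r i k => ok3 M r i k
  | .S r i k => decide (0 < k) && ok3 M r i k
  | .x j => decide (j < M.1.length)
  | .y j _ => decide (j < M.1.length)
  | _ => true

/-- edges of Left -/
def adjL (M : ARM) : V → V → Bool
  | .l0, .l1 => true
  | .l1, .l0 => true
  | .x j, .y j' _ => decide (j = j')
  | .y j _, .x j' => decide (j = j')
  | .G, .R r => decide ((rl M r).1 = M.2.1)
  | .U r i k, .R r' => decide (k = 0) && decide ((rl M r').1 = (pm M r i).1)
  | .A0, .W1 => true
  | .R _, .W1 => true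
  | .U _ _ _, .W1 => true
  | .S _ _ _, .W1 => true
  | _, _ => false

/-- edges of Right -/
def adjR (M : ARM) : V → V → Bool
  | .W0, .W1 => true
  | .W1, .W0 => true
  | .x _, .W0 => true
  | .y _ _, .W0 => true
  | .A0, .G => true
  | .G, .W0 => true
  | .R r, .y j b => decide ((j, b) ∈ (rl M r).2.1)
  | .R r, .U r' i k => decide (r = r') && decide (k = (us M r' i).length)
  | .U _ _ k, .W0 => decide (k = 0)
  | .U r i k, .x j => decide (0 < k) && !decide (j = (up M r i k).1)
  | .U r i k, .S r' i' k' => decide (r = r') && (decide (i = i') && decide (k = k'))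
  | .S _ _ _, .x _ => true
  | .S r i k, .y j b => decide (j = (up M r i k).1) && decide (b = (up M r i k).2)
  | .S r i k, .U r' i' k' => decide (r = r') && (decide (i = i') && decide (k = k' + 1))
  | _, _ => false

/-- the edges of a player -/
def adj (M : ARM) (b : Bool) (u v : V) : Bool := bif b then adjL M u v else adjR M u v

/-- the edges -/
def EE (M : ARM) (b : Bool) (u v : V) : Prop := ok M u = true ∧ ok M v = true ∧ adj M b u v = true

/-- the control vertices -/
def isC : V → Bool
  | .G => true
  | .A0 => true
  | .R _ => true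
  | .U _ _ _ => true
  | .S _ _ _ => true
  | _ => false

variable {M : ARM}

theorem adjL_ne {u v : V} (h : adjL M u v = true) : u ≠ v := by
  rintro rfl
  cases u <;> simp [adjL] at h

theorem adjR_ne {u v : V} (h : adjR M u v = true) : u ≠ v := by
  rintro rfl
  cases u <;> simp [adjR] at h

theorem adj_sep {u v : V} (h : adjL M u v = true) : adjR M u v = false := by
  cases u <;> cases v <;> simp_all [adjL, adjR]

/-- a move -/
abbrev mv (u v : V) (P : V → Bool) : V → Bool :=
  Function.update (Function.update P u false) v true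

theorem mv_apply (u v w : V) (P : V → Bool) :
    mv u v P w = if w = v then true else if w = u then false else P w := by
  simp only [mv, Function.update_apply]

/-- The control token is at `v`, the haven is empty, and the regions are described by `f`. -/
structure At (M : ARM) (v : V) (f : ℕ → Option Bool) (P : V → Bool) : Prop where
  c : ∀ w, isC w = true → (P w = true ↔ w = v)
  w0 : P .W0 = false
  w1 : P .W1 = false
  x : ∀ j, j < M.1.length → P (.x j) = (f j).isSome
  y : ∀ j b, j < M.1.length → P (.y j b) = !decide (f j = some (!b))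

theorem At.at {v : V} {f : ℕ → Option Bool} {P : V → Bool} (h : At M v f P)
    (hv : isC v = true) : P v = true := (h.c v hv).2 rfl

theorem At.off {v w : V} {f : ℕ → Option Bool} {P : V → Bool} (h : At M v f P)
    (hw : isC w = true) (hne : w ≠ v) : P w = false := by
  by_contra hno
  exact hne ((h.c w hw).1 (by simpa using hno))

theorem step_ctl {v v' : V} {f : ℕ → Option Bool} {P : V → Bool} (h : At M v f P)
    (hv : isC v = true) (hv' : isC v' = true) : At M v' f (mv v v' P) := by
  have hx : ∀ j, V.x j ≠ v ∧ V.x j ≠ v' := by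
    intro j
    constructor <;> (rintro rfl; simp [isC] at *)
  have hy : ∀ j b, V.y j b ≠ v ∧ V.y j b ≠ v' := by
    intro j b
    constructor <;> (rintro rfl; simp [isC] at *)
  refine ⟨fun w hw => ?_, ?_, ?_, fun j hj => ?_, fun j b hj => ?_⟩
  · rw [mv_apply]
    by_cases h1 : w = v'
    · simp [h1]
    · rw [if_neg h1]
      by_cases h2 : w = v
      · rw [if_pos h2]
        simp [h1]
      · rw [if_neg h2, h.off hw h2]
        simp [h1]
  · rw [mv_apply, if_neg (by rintro rfl; simp [isC] at hv'), if_neg (by rintro rfl; simp [isC] at hv)]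
    exact h.w0
  · rw [mv_apply, if_neg (by rintro rfl; simp [isC] at hv'), if_neg (by rintro rfl; simp [isC] at hv)]
    exact h.w1
  · rw [mv_apply, if_neg (hx j).2, if_neg (hx j).1]
    exact h.x j hj
  · rw [mv_apply, if_neg (hy j b).2, if_neg (hy j b).1]
    exact h.y j b hj

theorem isC_ne {w u : V} (hw : isC w = true) (hu : isC u = false) : w ≠ u := by
  rintro rfl
  rw [hw] at hu
  exact absurd hu (by decide)

theorem step_lift {v : V} {f : ℕ → Option Bool} {P : V → Bool} (h : At M v f P) {j : ℕ}
    {b : Bool} (hf : f j = some b) :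
    At M v (Function.update f j none) (mv (.x j) (.y j (!b)) P) := by
  refine ⟨fun w hw => ?_, ?_, ?_, fun j' hj' => ?_, fun j' b' hj' => ?_⟩
  · rw [mv_apply, if_neg (isC_ne hw rfl), if_neg (isC_ne hw rfl)]
    exact h.c w hw
  · rw [mv_apply, if_neg (by simp), if_neg (by simp)]
    exact h.w0
  · rw [mv_apply, if_neg (by simp), if_neg (by simp)]
    exact h.w1
  · rw [mv_apply, if_neg (by simp)]
    by_cases h1 : j' = j
    · subst h1
      simp
    · rw [if_neg (by simpa using h1), Function.update_of_ne h1]
      exact h.x j' hj'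
  · rw [mv_apply]
    by_cases h1 : j' = j
    · subst h1
      by_cases h2 : b' = !b
      · subst h2
        simp
      · rw [if_neg (by simpa using h2), if_neg (by simp), h.y j' b' hj', hf]
        have : b' = b := by
          cases b <;> cases b' <;> simp_all
        subst this
        simp
    · rw [if_neg (by simp [h1]), if_neg (by simp), Function.update_of_ne h1]
      exact h.y j' b' hj'

theorem step_place {v : V} {f : ℕ → Option Bool} {P : V → Bool} (h : At M v f P) {j : ℕ}
    (hf : f j = none) (b : Bool) :
    At M v (Function.update f j (some b)) (mv (.y j (!b)) (.x j) P) := by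
  refine ⟨fun w hw => ?_, ?_, ?_, fun j' hj' => ?_, fun j' b' hj' => ?_⟩
  · rw [mv_apply, if_neg (isC_ne hw rfl), if_neg (isC_ne hw rfl)]
    exact h.c w hw
  · rw [mv_apply, if_neg (by simp), if_neg (by simp)]
    exact h.w0
  · rw [mv_apply, if_neg (by simp), if_neg (by simp)]
    exact h.w1
  · rw [mv_apply]
    by_cases h1 : j' = j
    · subst h1
      simp
    · rw [if_neg (by simpa using h1), if_neg (by simp), Function.update_of_ne h1]
      exact h.x j' hj'
  · rw [mv_apply, if_neg (by simp)]
    by_cases h1 : j' = j
    · subst h1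
      by_cases h2 : b' = !b
      · subst h2
        simp
      · rw [if_neg (by simpa using h2), h.y j' b' hj', hf]
        have : b' = b := by
          cases b <;> cases b' <;> simp_all
        subst this
        simp
    · rw [if_neg (by simp [h1]), Function.update_of_ne h1]
      exact h.y j' b' hj'

theorem step_pass {v : V} {f : ℕ → Option Bool} {P : V → Bool} (h : At M v f P) {u w : V}
    (h1 : adjL M u w = true) (hl : u = .l0 ∨ u = .l1) : At M v f (mv u w P) := by
  have hu : isC u = false ∧ isC w = false ∧ u ≠ .W0 ∧ u ≠ .W1 ∧ w ≠ .W0 ∧ w ≠ .W1 ∧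
      (∀ j, u ≠ .x j ∧ w ≠ .x j) ∧ ∀ j b, u ≠ .y j b ∧ w ≠ .y j b := by
    rcases hl with rfl | rfl <;> cases w <;> simp_all [adjL, isC]
  obtain ⟨e1, e2, e3, e4, e5, e6, e7, e8⟩ := hu
  refine ⟨fun z hz => ?_, ?_, ?_, fun j' hj' => ?_, fun j' b' hj' => ?_⟩
  · rw [mv_apply, if_neg (isC_ne hz e2), if_neg (isC_ne hz e1)]
    exact h.c z hz
  · rw [mv_apply, if_neg (Ne.symm e5), if_neg (Ne.symm e3)]
    exact h.w0
  · rw [mv_apply, if_neg (Ne.symm e6), if_neg (Ne.symm e4)]
    exact h.w1
  · rw [mv_apply, if_neg (Ne.symm (e7 j').2), if_neg (Ne.symm (e7 j').1)]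
    exact h.x j' hj'
  · rw [mv_apply, if_neg (Ne.symm (e8 j' b').2), if_neg (Ne.symm (e8 j' b').1)]
    exact h.y j' b' hj'

/-- the game -/
abbrev Gm (M : ARM) : Pos V → Pos V → Prop := PMove (EE M)

/-- Left is to move and can force a win -/
abbrev Win (M : ARM) (P : V → Bool) : Prop := Forces (Gm M) true (true, P)

/-- Right is to move and Left can force a win -/
abbrev Lose (M : ARM) (P : V → Bool) : Prop := Forces (Gm M) false (false, P)

theorem win_mv {P : V → Bool} {u w : V} (hu : P u = true) (hw : P w = false)
    (he : EE M true u w) (h : Lose M (mv u w P)) : Win M P :=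
  .win ⟨u, w, hu, hw, he, rfl⟩ h

theorem stuck {P : V → Bool} (h0 : P .W0 = true) (h1 : P .W1 = true)
    (hc : ∀ w, isC w = true → P w = false) : Lose M P := by
  refine .lose fun q hq => ?_
  exfalso
  obtain ⟨u, v, hu, hv, ⟨-, -, h⟩, -⟩ := hq
  simp only [adj, cond_false] at h hu hv
  have hu' : isC u = false := by
    by_contra hno
    rw [hc u (by simpa using hno)] at hu
    exact absurd hu (by decide)
  have : v = .W0 ∨ v = .W1 := by
    cases u <;> cases v <;> simp_all [adjR, isC]
  rcases this with rfl | rfl
  · rw [h0] at hv; exact absurd hv (by decide)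
  · rw [h1] at hv; exact absurd hv (by decide)

theorem steal {v : V} {f : ℕ → Option Bool} {P : V → Bool} (h : At M v f P) (hv : isC v = true)
    (hok : ok M v = true) (he : adjL M v .W1 = true) {u : V} (hu : isC u = false) :
    Win M (mv u .W0 P) := by
  have h1 : mv u .W0 P v = true := by
    rw [mv_apply, if_neg (isC_ne hv rfl), if_neg (isC_ne hv hu)]
    exact h.at hv
  have h2 : mv u .W0 P .W1 = false := by
    rw [mv_apply, if_neg (by simp)]
    split_ifs
    · rfl
    · exact h.w1
  refine win_mv h1 h2 ⟨hok, rfl, by simpa [adj] using he⟩ ?_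
  refine stuck ?_ ?_ ?_
  · rw [mv_apply, if_neg (by simp), if_neg (isC_ne hv rfl).symm, mv_apply, if_pos rfl]
  · rw [mv_apply, if_pos rfl]
  · intro w hw
    rw [mv_apply, if_neg (isC_ne hw rfl)]
    split_ifs with h3
    · rfl
    · rw [mv_apply, if_neg (isC_ne hw rfl), if_neg (isC_ne hw hu)]
      exact h.off hw h3

theorem right_cases {v : V} {f : ℕ → Option Bool} {P : V → Bool} (h : At M v f P) {q : Pos V}
    (hq : Gm M (false, P) q) : (∃ u, isC u = false ∧ q = (true, mv u .W0 P)) ∨
      ∃ w, P w = false ∧ EE M false v w ∧ q = (true, mv v w P) := by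
  obtain ⟨u, w, hu, hw, he, rfl⟩ := hq
  simp only at hu hw he
  by_cases hc : isC u = true
  · have : u = v := (h.c u hc).1 hu
    subst this
    exact Or.inr ⟨w, hw, he, rfl⟩
  · left
    have h1 := he.2.2
    simp only [adj, cond_false] at h1
    have : w = .W0 := by
      cases u with
      | W0 => rw [h.w0] at hu; exact absurd hu (by decide)
      | W1 => rw [h.w1] at hu; exact absurd hu (by decide)
      | _ => cases w <;> simp_all [adjR, isC]
    subst this
    exact ⟨u, by simpa using hc, rfl⟩

theorem right_lose {v : V} {f : ℕ → Option Bool} {P : V → Bool} (h : At M v f P)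
    (hv : isC v = true) (hok : ok M v = true) (he : adjL M v .W1 = true)
    (hm : ∀ w, P w = false → EE M false v w → Win M (mv v w P)) : Lose M P := by
  refine .lose fun q hq => ?_
  rcases right_cases h hq with ⟨u, hu, rfl⟩ | ⟨w, h1, h2, rfl⟩
  · exact steal h hv hok he hu
  · exact hm w h1 h2

/-- rest states of the regions -/
abbrev rs (σ : ℕ → Bool) : ℕ → Option Bool := fun j => some (σ j)

theorem rs_update (σ : ℕ → Bool) (j : ℕ) (b : Bool) :
    Function.update (rs σ) j (some b) = rs (Function.update σ j b) := by
  funext i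
  simp only [Function.update_apply, rs]
  split_ifs <;> rfl

theorem lift_update (σ : ℕ → Bool) (j : ℕ) (b : Bool) :
    Function.update (Function.update (rs σ) j none) j (some b) = rs (Function.update σ j b) := by
  rw [Function.update_idem, rs_update]

section

variable {r i k : ℕ}

theorem okU (h : ok3 M r i k = true) : ok M (.U r i k) = true := by
  simpa [ok] using h

theorem okS (h : ok3 M r i k = true) (h0 : 0 < k) : ok M (.S r i k) = true := by
  simp [ok, h, h0]

theorem ok3_pred (h : ok3 M r i (k + 1) = true) : ok3 M r i k = true := by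
  rw [ok3_iff] at h ⊢
  omega

end

/-- A chain of updates. -/
theorem chain (hM : ARMPr M) {r i : ℕ} : ∀ (k : ℕ) (σ : ℕ → Bool), ok3 M r i k = true →
    (∀ P, At M (.U r i 0) (rs (upd σ ((us M r i).take k))) P → Win M P) →
    ∀ P, At M (.U r i k) (rs σ) P → Win M P := by
  intro k
  induction k with
  | zero =>
    intro σ hk h P hP
    exact h P (by rwa [List.take_zero, upd_nil])
  | succ k ih =>
    intro σ hk h P hP
    have hj := up_lt hM hk (Nat.succ_pos k)
    rw [upd_take hk (Nat.succ_pos k), Nat.add_sub_cancel] at h
    set j := (up M r i (k + 1)).1 with hjd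
    set b := (up M r i (k + 1)).2 with hbd
    -- Left lifts the register
    refine win_mv (u := .x j) (w := .y j (!σ j)) ?_ ?_
      ⟨by simpa [ok] using hj, by simpa [ok] using hj, ?_⟩ ?_
    · rw [hP.x j hj]
      rfl
    · rw [hP.y j _ hj]
      simp
    · simp [adj, adjL]
    have h1 : At M (.U r i (k + 1)) (Function.update (rs σ) j none)
        (mv (.x j) (.y j (!σ j)) P) := step_lift hP rfl
    refine right_lose h1 rfl (okU hk) rfl fun w hw he => ?_
    have he2 := he.2.2
    simp only [adj, cond_false] at he2
    cases w with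
    | x j' =>
      exfalso
      have hok : j' < M.1.length := by simpa [ok] using he.2.1
      simp only [adjR, Bool.and_eq_true, Bool.not_eq_true', decide_eq_false_iff_not] at he2
      rw [h1.x j' hok, Function.update_of_ne he2.2] at hw
      simp at hw
    | S r' i' k' =>
      simp only [adjR, Bool.and_eq_true, decide_eq_true_eq] at he2
      obtain ⟨rfl, rfl, rfl⟩ := he2
      have h2 := step_ctl h1 (v' := .S r i (k + 1)) rfl rfl
      -- Left puts it back
      refine win_mv (u := .y j (!b)) (w := .x j) ?_ ?_
        ⟨by simpa [ok] using hj, by simpa [ok] using hj, ?_⟩ ?_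
      · rw [h2.y j _ hj]
        simp
      · rw [h2.x j hj]
        simp
      · simp [adj, adjL]
      have h3 := step_place h2 (Function.update_self ..) b
      rw [lift_update] at h3
      refine right_lose h3 rfl (okS hk (Nat.succ_pos k)) rfl fun w hw he => ?_
      have he2 := he.2.2
      simp only [adj, cond_false] at he2
      cases w with
      | x j' =>
        exfalso
        have hok : j' < M.1.length := by simpa [ok] using he.2.1
        rw [h3.x j' hok] at hw
        simp at hw
      | y j' b' =>
        exfalso
        simp only [adjR, Bool.and_eq_true, decide_eq_true_eq] at he2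
        obtain ⟨e1, e2⟩ := he2
        rw [← hjd] at e1
        rw [← hbd] at e2
        subst e1 e2
        rw [h3.y _ _ hj] at hw
        simp at hw
      | U r' i' k' =>
        simp only [adjR, Bool.and_eq_true, decide_eq_true_eq] at he2
        obtain ⟨rfl, rfl, h4⟩ := he2
        obtain rfl : k = k' := by omega
        exact ih _ (ok3_pred hk) h _ (step_ctl h3 rfl rfl)
      | _ => simp [adjR] at he2
    | _ => simp [adjR] at he2

/-- If the machine accepts, then Left wins. -/
theorem acc (hM : ARMPr M) {c : ℕ} {σ : ℕ → Bool} (h : Der M.2.2 c σ) : ∀ (v : V) (P : V → Bool),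
    ((v = .G ∧ c = M.2.1) ∨ ∃ r i, v = .U r i 0 ∧ ok3 M r i 0 = true ∧ c = (pm M r i).1) →
    At M v (rs σ) P → Win M P := by
  induction h with
  | mk rule σ hr hg hp ih =>
    intro v P hv hP
    obtain ⟨r, hr1, hr2⟩ := List.getElem_of_mem hr
    have hrl : rl M r = rule := by
      unfold rl
      rw [List.getD_eq_getElem _ _ hr1, hr2]
    have hokR : ok M (.R r) = true := by simpa [ok] using hr1
    have hlose : ∀ P, At M (.R r) (rs σ) P → Lose M P := by
      intro P hP
      refine right_lose hP rfl hokR rfl fun w hw he => ?_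
      have he2 := he.2.2
      simp only [adj, cond_false] at he2
      cases w with
      | y j b =>
        exfalso
        have hok : j < M.1.length := by simpa [ok] using he.2.1
        simp only [adjR, decide_eq_true_eq] at he2
        rw [hrl] at he2
        have h1 := hg _ he2
        simp only at h1
        rw [hP.y j b hok, ← h1] at hw
        simp at hw
      | U r' i k =>
        simp only [adjR, Bool.and_eq_true, decide_eq_true_eq] at he2
        obtain ⟨rfl, rfl⟩ := he2
        have hk : ok3 M r i (us M r i).length = true := by simpa [ok] using he.2.1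
        have hk' := ok3_iff.1 hk
        have h7 : pm M r i ∈ rule.2.2 := by
          rw [← hrl]
          exact pm_mem hk'.2.1
        refine chain hM _ _ hk (fun P' hP' => ?_) _ (step_ctl hP rfl rfl)
        rw [List.take_length] at hP'
        exact ih _ h7 _ P' (Or.inr ⟨r, i, rfl, by rw [ok3_iff]; omega, rfl⟩) hP'
      | _ => simp [adjR] at he2
    rcases hv with ⟨rfl, hc⟩ | ⟨r', i', rfl, hk, hc⟩
    · refine win_mv (u := .G) (w := .R r) (hP.at rfl) (hP.off rfl (by simp)) ⟨rfl, hokR, ?_⟩
        (hlose _ (step_ctl hP rfl rfl))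
      simp [adj, adjL, hrl, hc]
    · refine win_mv (u := .U r' i' 0) (w := .R r) (hP.at rfl) (hP.off rfl (by simp))
        ⟨okU hk, hokR, ?_⟩ (hlose _ (step_ctl hP rfl rfl))
      simp [adj, adjL, hrl, hc]

end Pool.Agent.Q224.EB
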