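import Pool.Agent.H578R2.ANN.Game

/-!
# Edge Blocking: the game
-/

namespace Pool.Agent.Q224.EB

open Pool.Agent.NPC.ANN

/-- A position: the player to move (`true` for Left, `false` for Right) and the occupied
vertices. -/
abbrev Pos (V : Type) : Type := Bool × (V → Bool)

/-- A move of Edge Blocking; `E true` are the edges of Left and `E false` the edges of Right.  The
player to move slides a token along one of the own edges to a vertex which holds no token. -/
def PMove {V : Type} [DecidableEq V] (E : Bool → V → V → Prop) (p q : Pos V) : Prop :=
  ∃ u v : V, p.2 u = true ∧ p.2 v = false ∧ E p.1 u v ∧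
    q = (!p.1, Function.update (Function.update p.2 u false) v true)

/-- Descriptions of Edge Blocking positions: the player to move (`true` for Left), the edges of the
digraph, the edges of Left, the edges of Right, and for each vertex whether it holds a token.  The
vertices are the numbers smaller than the length of the last list. -/
abbrev Desc : Type := Bool × (List (ℕ × ℕ) × (List (ℕ × ℕ) × (List (ℕ × ℕ) × List Bool)))

/-- the edges of the digraph -/
abbrev edges (D : Desc) : List (ℕ × ℕ) := D.2.1

/-- the edges of Left -/
abbrev edgesL (D : Desc) : List (ℕ × ℕ) := D.2.2.1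

/-- the edges of Right -/
abbrev edgesR (D : Desc) : List (ℕ × ℕ) := D.2.2.2.1

/-- the placement of the tokens -/
abbrev tokens (D : Desc) : List Bool := D.2.2.2.2

/-- The description is correct: the edges join distinct vertices, and the edges of the players are
edges of the digraph. -/
def IsPosition (D : Desc) : Prop :=
  (∀ e ∈ edges D, e.1 < (tokens D).length ∧ e.2 < (tokens D).length ∧ e.1 ≠ e.2) ∧
  (∀ e ∈ edgesL D, e ∈ edges D) ∧ ∀ e ∈ edgesR D, e ∈ edges D

/-- No edge may be used by both players. -/
def Separate (D : Desc) : Prop := ∀ e ∈ edgesL D, e ∉ edgesR D

/-- The moves of the game. -/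
def Mv (D : Desc) : Pos ℕ → Pos ℕ → Prop :=
  PMove (fun b u v => (u, v) ∈ if b = true then edgesL D else edgesR D)

/-- The position which is described. -/
def start (D : Desc) : Pos ℕ := (D.1, fun v => (tokens D).getD v false)

/-- The player to move can force a win. -/
def MoverWins (D : Desc) : Prop := Forces (Mv D) true (start D)

/-- The other player can force a win. -/
def OtherWins (D : Desc) : Prop := Forces (Mv D) false (start D)

/-- Neither player can force a win. -/
def Drawn (D : Desc) : Prop := ¬ MoverWins D ∧ ¬ OtherWins D

end Pool.Agent.Q224.EB
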