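import Pool.Agent.Q224.EB.Rej
import Pool.Agent.H578R2.ANN.Enc

/-!
# Edge Blocking: instances
-/

namespace Pool.Agent.Q224.EB

open Pool.Agent.NPC.ANN (Forces rl pm us up ok3 ok3_iff rl_mem pm_mem up_lt Lb Bd Bd_regs Bd_rules
  Bd_prems Bd_upd toNat_inj)
open Pool.Agent.H820R2.SS

/-! ### Renaming vertices -/

theorem transport {V : Type} [DecidableEq V] {E : Bool → V → V → Prop} {E' : Bool → ℕ → ℕ → Prop}
    {ok : V → Prop} {f : V → ℕ} (hE : ∀ b u v, E b u v → ok u ∧ ok v)
    (hf : ∀ u v, ok u → ok v → f u = f v → u = v)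
    (hE' : ∀ b x y, E' b x y ↔ ∃ u v, E b u v ∧ f u = x ∧ f v = y)
    {P : V → Bool} {Q : ℕ → Bool} (h1 : ∀ v, ok v → Q (f v) = P v) {w t : Bool} :
    Forces (PMove E) w (t, P) ↔ Forces (PMove E') w (t, Q) := by
  have key : ∀ (P : V → Bool) (Q : ℕ → Bool) (u v : V), ok u → ok v →
      (∀ v, ok v → Q (f v) = P v) →
      ∀ v', ok v' → (Function.update (Function.update Q (f u) false) (f v) true) (f v') =
          (Function.update (Function.update P u false) v true) v' := by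
    intro P Q u v hu hv h1 v' hv'
    simp only [Function.update_apply]
    by_cases h4 : v' = v
    · subst h4
      rw [if_pos rfl, if_pos rfl]
    · rw [if_neg h4, if_neg (fun h => h4 (hf _ _ hv' hv h))]
      by_cases h5 : v' = u
      · subst h5
        rw [if_pos rfl, if_pos rfl]
      · rw [if_neg h5, if_neg (fun h => h5 (hf _ _ hv' hu h))]
        exact h1 _ hv'
  refine Forces.bisim_iff (R := fun (P : Pos V) (Q : Pos ℕ) => P.1 = Q.1 ∧
    ∀ v, ok v → Q.2 (f v) = P.2 v) ?_ ?_ ⟨rfl, h1⟩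
  · rintro ⟨t, P⟩ ⟨t', Q⟩ ⟨ht, hR⟩ P' ⟨u, v, hu, hv, he, rfl⟩
    simp only at ht hR hu hv he
    subst ht
    obtain ⟨hou, hov⟩ := hE _ _ _ he
    refine ⟨_, ⟨f u, f v, ?_, ?_, (hE' _ _ _).2 ⟨u, v, he, rfl, rfl⟩, rfl⟩, rfl,
      key P Q u v hou hov hR⟩
    · show Q (f u) = true
      rw [hR _ hou, hu]
    · show Q (f v) = false
      rw [hR _ hov, hv]
  · rintro ⟨t, P⟩ ⟨t', Q⟩ ⟨ht, hR⟩ Q' ⟨x, y, hx, hy, he, rfl⟩
    simp only at ht hR hx hy he
    subst ht
    obtain ⟨u, v, he', rfl, rfl⟩ := (hE' _ _ _).1 he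
    obtain ⟨hou, hov⟩ := hE _ _ _ he'
    refine ⟨_, ⟨u, v, ?_, ?_, he', rfl⟩, rfl, key P Q u v hou hov hR⟩
    · show P u = true
      rw [← hR _ hou, hx]
    · show P v = false
      rw [← hR _ hov, hy]

/-! ### Labels -/

/-- The label of a vertex. -/
def code : V → Lb
  | .G => (0, 0, 0, 0)
  | .A0 => (1, 0, 0, 0)
  | .W0 => (2, 0, 0, 0)
  | .W1 => (3, 0, 0, 0)
  | .l0 => (4, 0, 0, 0)
  | .l1 => (5, 0, 0, 0)
  | .R r => (6, r, 0, 0)
  | .U r i k => (7, r, i, k)
  | .S r i k => (8, r, i, k)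
  | .x j => (9, j, 0, 0)
  | .y j b => (10, j, b.toNat, 0)

theorem code_inj : Function.Injective code := by
  intro a b h
  rcases a with _ | _ | _ | _ | _ | _ | r | ⟨r, i, k⟩ | ⟨r, i, k⟩ | j | ⟨j, y⟩ <;>
  rcases b with _ | _ | _ | _ | _ | _ | r' | ⟨r', i', k'⟩ | ⟨r', i', k'⟩ | j' | ⟨j', y'⟩ <;>
  first
    | rfl
    | (exfalso; revert h; simp [code]; done)
    | (simp [code] at h; simp [h]; done)
    | (simp only [code, Prod.mk.injEq, true_and, and_true] at h
       obtain ⟨rfl, h⟩ := h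
       rw [toNat_inj h])

/-- the labels of the used vertices -/
def okL (M : ARM) (z : Lb) : Bool :=
  let k := z.1
  let a := z.2.1
  let b := z.2.2.1
  let c := z.2.2.2
  (decide (k ≤ 5) && (decide (a = 0) && (decide (b = 0) && decide (c = 0)))) ||
  (decide (k = 6) && (decide (a < M.2.2.length) && (decide (b = 0) && decide (c = 0)))) ||
  (decide (k = 7) && ok3 M a b c) ||
  (decide (k = 8) && (decide (0 < c) && ok3 M a b c)) ||
  (decide (k = 9) && (decide (a < M.1.length) && (decide (b = 0) && decide (c = 0)))) ||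
  (decide (k = 10) && (decide (a < M.1.length) && (decide (b < 2) && decide (c = 0))))

theorem okL_code (M : ARM) (v : V) : okL M (code v) = ok M v := by
  rcases v with _ | _ | _ | _ | _ | _ | r | ⟨r, i, k⟩ | ⟨r, i, k⟩ | j | ⟨j, y⟩ <;>
    simp [okL, ok, code]
  all_goals first
    | congr; done
    | (intro _; cases y <;> simp)
    | (cases y <;> simp <;> congr)

theorem okL_surj {M : ARM} {z : Lb} (hk : z.1 < 11) (h : okL M z = true) : ∃ v, code v = z := by
  obtain ⟨k, a, b, c⟩ := z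
  simp only at hk
  interval_cases k <;> simp [okL] at h
  · obtain ⟨rfl, rfl, rfl⟩ := h
    exact ⟨.G, rfl⟩
  · obtain ⟨rfl, rfl, rfl⟩ := h
    exact ⟨.A0, rfl⟩
  · obtain ⟨rfl, rfl, rfl⟩ := h
    exact ⟨.W0, rfl⟩
  · obtain ⟨rfl, rfl, rfl⟩ := h
    exact ⟨.W1, rfl⟩
  · obtain ⟨rfl, rfl, rfl⟩ := h
    exact ⟨.l0, rfl⟩
  · obtain ⟨rfl, rfl, rfl⟩ := h
    exact ⟨.l1, rfl⟩
  · obtain ⟨_, rfl, rfl⟩ := h
    exact ⟨.R a, rfl⟩
  · exact ⟨.U a b c, rfl⟩
  · exact ⟨.S a b c, rfl⟩
  · obtain ⟨_, rfl, rfl⟩ := h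
    exact ⟨.x a, rfl⟩
  · obtain ⟨_, hb, rfl⟩ := h
    refine ⟨.y a (decide (b = 1)), ?_⟩
    interval_cases b <;> simp [code]

/-- adjacency for Left -/
def lL (M : ARM) (z z' : Lb) : Bool :=
  let k := z.1
  let a := z.2.1
  let b := z.2.2.1
  let c := z.2.2.2
  let k' := z'.1
  let a' := z'.2.1
  (decide (k = 4) && decide (k' = 5)) ||
  (decide (k = 5) && decide (k' = 4)) ||
  (decide (k = 9) && (decide (k' = 10) && decide (a = a'))) ||
  (decide (k = 10) && (decide (k' = 9) && decide (a = a'))) ||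
  (decide (k = 0) && (decide (k' = 6) && decide ((rl M a').1 = M.2.1))) ||
  (decide (k = 7) && (decide (k' = 6) && (decide (c = 0) && decide ((rl M a').1 = (pm M a b).1)))) ||
  ((decide (k = 1) || (decide (k = 6) || (decide (k = 7) || decide (k = 8)))) && decide (k' = 3))

/-- adjacency for Right -/
def rL (M : ARM) (z z' : Lb) : Bool :=
  let k := z.1
  let a := z.2.1
  let b := z.2.2.1
  let c := z.2.2.2
  let k' := z'.1
  let a' := z'.2.1
  let b' := z'.2.2.1
  let c' := z'.2.2.2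
  (decide (k = 2) && decide (k' = 3)) ||
  (decide (k = 3) && decide (k' = 2)) ||
  ((decide (k = 9) || (decide (k = 10) || decide (k = 0))) && decide (k' = 2)) ||
  (decide (k = 1) && decide (k' = 0)) ||
  (decide (k = 6) && ((decide (k' = 10) && decide ((a', decide (b' = 1)) ∈ (rl M a).2.1)) ||
    (decide (k' = 7) && (decide (a = a') && decide (c' = (us M a' b').length))))) ||
  (decide (k = 7) && ((decide (k' = 2) && decide (c = 0)) ||
    ((decide (k' = 9) && (decide (0 < c) && !decide (a' = (up M a b c).1))) ||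
    (decide (k' = 8) && (decide (a = a') && (decide (b = b') && decide (c = c'))))))) ||
  (decide (k = 8) && (decide (k' = 9) ||
    ((decide (k' = 10) && (decide (a' = (up M a b c).1) &&
      decide (decide (b' = 1) = (up M a b c).2))) ||
    (decide (k' = 7) && (decide (a = a') && (decide (b = b') && decide (c = c' + 1)))))))

theorem lL_code (M : ARM) (u v : V) : lL M (code u) (code v) = adjL M u v := by
  rcases u with _ | _ | _ | _ | _ | _ | r | ⟨r, i, k⟩ | ⟨r, i, k⟩ | j | ⟨j, y⟩ <;>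
  rcases v with _ | _ | _ | _ | _ | _ | r' | ⟨r', i', k'⟩ | ⟨r', i', k'⟩ | j' | ⟨j', y'⟩ <;>
  simp [lL, adjL, code]
  all_goals congr

theorem rL_code (M : ARM) (u v : V) : rL M (code u) (code v) = adjR M u v := by
  rcases u with _ | _ | _ | _ | _ | _ | r | ⟨r, i, k⟩ | ⟨r, i, k⟩ | j | ⟨j, y⟩ <;>
  rcases v with _ | _ | _ | _ | _ | _ | r' | ⟨r', i', k'⟩ | ⟨r', i', k'⟩ | j' | ⟨j', y'⟩ <;>
  simp [rL, adjR, code]
  all_goals congr

/-! ### The instance -/

/-- all labels -/
def vs (M : ARM) : List Lb :=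
  ((List.range 11) ×ˢ ((List.range (Bd M)) ×ˢ ((List.range (Bd M)) ×ˢ (List.range (Bd M))))).filter
    (okL M)

theorem vs_nodup (M : ARM) : (vs M).Nodup := by
  unfold vs
  apply List.Nodup.filter
  exact List.nodup_range.product (List.nodup_range.product
    (List.nodup_range.product List.nodup_range))

theorem mem_vs {M : ARM} {z : Lb} : z ∈ vs M ↔ ∃ v, ok M v = true ∧ code v = z := by
  unfold vs
  rw [List.mem_filter]
  constructor
  · rintro ⟨h1, h2⟩
    have h3 : z.1 < 11 := by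
      obtain ⟨k, a, b, c⟩ := z
      simp only [List.mem_product, List.mem_range] at h1
      exact h1.1
    obtain ⟨v, rfl⟩ := okL_surj h3 h2
    exact ⟨v, by rwa [okL_code] at h2, rfl⟩
  · rintro ⟨v, hv, rfl⟩
    refine ⟨?_, by rw [okL_code]; exact hv⟩
    have hB := Bd_regs M
    have hB2 := Bd_rules M
    rcases v with _ | _ | _ | _ | _ | _ | r | ⟨r, i, k⟩ | ⟨r, i, k⟩ | j | ⟨j, y⟩ <;>
    simp only [code, List.mem_product, List.mem_range]
    · omega
    · omega
    · omega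
    · omega
    · omega
    · omega
    · simp only [ok, decide_eq_true_eq] at hv
      omega
    · simp only [ok] at hv
      obtain ⟨h1, h2, h3⟩ := ok3_iff.1 hv
      exact ⟨by omega, by omega, Bd_prems h1 h2, Bd_upd hv⟩
    · simp only [ok, Bool.and_eq_true] at hv
      obtain ⟨h1, h2, h3⟩ := ok3_iff.1 hv.2
      exact ⟨by omega, by omega, Bd_prems h1 h2, Bd_upd hv.2⟩
    · simp only [ok, decide_eq_true_eq] at hv
      omega
    · simp only [ok, decide_eq_true_eq] at hv
      have : y.toNat ≤ 1 := by cases y <;> simp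
      omega

/-- the number of a vertex -/
def nu (M : ARM) (v : V) : ℕ := (vs M).idxOf (code v)

theorem nu_lt {M : ARM} {v : V} (h : ok M v = true) : nu M v < (vs M).length :=
  List.idxOf_lt_length_iff.2 (mem_vs.2 ⟨v, h, rfl⟩)

theorem nu_get {M : ARM} {v : V} (h : ok M v = true) (d : Lb) :
    (vs M).getD (nu M v) d = code v := by
  rw [List.getD_eq_getElem _ _ (nu_lt h)]
  exact List.getElem_idxOf (nu_lt h)

theorem nu_inj {M : ARM} {u v : V} (hu : ok M u = true) (hv : ok M v = true)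
    (h : nu M u = nu M v) : u = v := by
  apply code_inj
  rw [← nu_get hu (0, 0, 0, 0), ← nu_get hv (0, 0, 0, 0), h]

theorem nu_surj {M : ARM} {x : ℕ} (h : x < (vs M).length) : ∃ v, ok M v = true ∧ nu M v = x := by
  obtain ⟨v, hv, hc⟩ := mem_vs.1 (List.getElem_mem h)
  refine ⟨v, hv, ?_⟩
  unfold nu
  rw [hc]
  exact (vs_nodup M).idxOf_getElem x h

/-- the pairs of vertices satisfying a test on labels -/
def edg (l : List Lb) (t : Lb → Lb → Bool) : List (ℕ × ℕ) :=
  ((List.range l.length) ×ˢ (List.range l.length)).filter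
    (fun p => t (l.getD p.1 (0, 0, 0, 0)) (l.getD p.2 (0, 0, 0, 0)))

/-- The instance; the control token starts at the vertex with label `(c, 0, 0, 0)`. -/
def inst (t : Bool) (c : ℕ) (M : ARM) : Desc :=
  (t, edg (vs M) (lL M) ++ edg (vs M) (rL M), edg (vs M) (lL M), edg (vs M) (rL M),
    (vs M).map (fun z => decide (z.1 = c) || (decide (z.1 = 4) || (decide (z.1 = 9) ||
      (decide (z.1 = 10) && decide (z.2.2.1 = 0))))))

/-- the placement on the board -/
def P0 (M : ARM) (v0 v : V) : Bool :=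
  decide (v = v0) || (decide (v = .l0) || (match v with
    | .x j => decide (j < M.1.length)
    | .y _ b => !b
    | _ => false))

theorem P0_at {M : ARM} {v0 : V} (h0 : isC v0 = true) :
    At M v0 (rs fun _ => false) (P0 M v0) := by
  refine ⟨fun w hw => ?_, ?_, ?_, fun j hj => ?_, fun j b hj => ?_⟩
  · cases w <;> simp_all [P0, isC]
  · cases v0 <;> simp_all [P0, isC]
  · cases v0 <;> simp_all [P0, isC]
  · simp [P0, hj]
  · cases v0 <;> simp_all [P0, isC]

theorem P0_Xr {M : ARM} {v0 : V} (h0 : isC v0 = true) : Xr (P0 M v0) := by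
  cases v0 <;> simp_all [Xr, P0, isC]

theorem mem_edg {M : ARM} {t : Lb → Lb → Bool} {x y : ℕ} : (x, y) ∈ edg (vs M) t ↔
    ∃ u v, ok M u = true ∧ ok M v = true ∧ t (code u) (code v) = true ∧ nu M u = x ∧
      nu M v = y := by
  unfold edg
  rw [List.mem_filter, List.mem_product, List.mem_range, List.mem_range]
  constructor
  · rintro ⟨⟨h1, h2⟩, h3⟩
    obtain ⟨u, hu, rfl⟩ := nu_surj h1
    obtain ⟨v, hv, rfl⟩ := nu_surj h2
    refine ⟨u, v, hu, hv, ?_, rfl, rfl⟩
    simpa only [nu_get hu, nu_get hv] using h3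
  · rintro ⟨u, v, hu, hv, h, rfl, rfl⟩
    refine ⟨⟨nu_lt hu, nu_lt hv⟩, ?_⟩
    simpa only [nu_get hu, nu_get hv] using h

theorem inst_edges (t : Bool) (c : ℕ) (M : ARM) (b : Bool) (x y : ℕ) :
    ((x, y) ∈ if b = true then edgesL (inst t c M) else edgesR (inst t c M)) ↔
    ∃ u v, EE M b u v ∧ nu M u = x ∧ nu M v = y := by
  cases b
  · simp only [inst, edgesR, Bool.false_eq_true, if_false]
    rw [mem_edg]
    constructor
    · rintro ⟨u, v, hu, hv, h, h1, h2⟩
      exact ⟨u, v, ⟨hu, hv, by rw [rL_code] at h; exact h⟩, h1, h2⟩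
    · rintro ⟨u, v, ⟨hu, hv, h⟩, h1, h2⟩
      exact ⟨u, v, hu, hv, by rw [rL_code]; exact h, h1, h2⟩
  · simp only [inst, edgesL, if_true]
    rw [mem_edg]
    constructor
    · rintro ⟨u, v, hu, hv, h, h1, h2⟩
      exact ⟨u, v, ⟨hu, hv, by rw [lL_code] at h; exact h⟩, h1, h2⟩
    · rintro ⟨u, v, ⟨hu, hv, h⟩, h1, h2⟩
      exact ⟨u, v, hu, hv, by rw [lL_code]; exact h, h1, h2⟩

theorem inst_start {t : Bool} {c : ℕ} {M : ARM} {v0 : V} (hc : code v0 = (c, 0, 0, 0))
    (hc6 : c < 2) (v : V) (hv : ok M v = true) :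
    (start (inst t c M)).2 (nu M v) = P0 M v0 v := by
  have h1 : (start (inst t c M)).2 (nu M v) = (fun z : Lb => decide (z.1 = c) ||
      (decide (z.1 = 4) || (decide (z.1 = 9) ||
      (decide (z.1 = 10) && decide (z.2.2.1 = 0))))) (code v) := by
    unfold start inst tokens
    simp only
    rw [List.getD_eq_getElem _ _ (by rw [List.length_map]; exact nu_lt hv), List.getElem_map]
    have h2 := nu_get hv (0, 0, 0, 0)
    rw [List.getD_eq_getElem _ _ (nu_lt hv)] at h2
    rw [h2]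
  rw [h1]
  have hv0 : (c = 0 ∧ v0 = .G) ∨ (c = 1 ∧ v0 = .A0) := by
    have : c = 0 ∨ c = 1 := by omega
    rcases this with rfl | rfl
    · exact Or.inl ⟨rfl, code_inj hc⟩
    · exact Or.inr ⟨rfl, code_inj hc⟩
  rcases hv0 with ⟨rfl, rfl⟩ | ⟨rfl, rfl⟩
  · rcases v with _ | _ | _ | _ | _ | _ | r | ⟨r, i, k⟩ | ⟨r, i, k⟩ | j | ⟨j, y⟩ <;>
      simp [code, P0]
    all_goals first
      | (simpa [ok] using hv)
      | (cases y <;> simp)
  · rcases v with _ | _ | _ | _ | _ | _ | r | ⟨r, i, k⟩ | ⟨r, i, k⟩ | j | ⟨j, y⟩ <;>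
      simp [code, P0]
    all_goals first
      | (simpa [ok] using hv)
      | (cases y <;> simp)

theorem inst_forces {t : Bool} {c : ℕ} {M : ARM} {v0 : V} (hc : code v0 = (c, 0, 0, 0))
    (hc6 : c < 2) (w : Bool) : Forces (Mv (inst t c M)) w (start (inst t c M)) ↔
    Forces (Gm M) w (t, P0 M v0) := by
  symm
  exact transport (ok := fun v => ok M v = true) (f := nu M) (fun b u v h => ⟨h.1, h.2.1⟩)
    (fun u v => nu_inj) (inst_edges t c M) (Q := (start (inst t c M)).2)
    (inst_start hc hc6)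

theorem inst_isPosition (t : Bool) (c : ℕ) (M : ARM) : IsPosition (inst t c M) := by
  have hlen : (tokens (inst t c M)).length = (vs M).length := by
    simp [inst, tokens]
  refine ⟨?_, ?_, ?_⟩
  · rw [hlen]
    rintro ⟨x, y⟩ he
    simp only [inst, edges, List.mem_append] at he
    rcases he with he | he
    · obtain ⟨u, v, hu, hv, h, rfl, rfl⟩ := mem_edg.1 he
      refine ⟨nu_lt hu, nu_lt hv, fun h2 => ?_⟩
      have h3 := nu_inj hu hv h2
      rw [lL_code] at h
      exact adjL_ne h h3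
    · obtain ⟨u, v, hu, hv, h, rfl, rfl⟩ := mem_edg.1 he
      refine ⟨nu_lt hu, nu_lt hv, fun h2 => ?_⟩
      have h3 := nu_inj hu hv h2
      rw [rL_code] at h
      exact adjR_ne h h3
  · intro e he
    exact List.mem_append_left _ he
  · intro e he
    exact List.mem_append_right _ he

theorem inst_separate (t : Bool) (c : ℕ) (M : ARM) : Separate (inst t c M) := by
  rintro ⟨x, y⟩ h1 h2
  simp only [inst, edgesL] at h1
  simp only [inst, edgesR] at h2
  obtain ⟨u, v, hu, hv, h, h3, h4⟩ := mem_edg.1 h1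
  obtain ⟨u', v', hu', hv', h', h3', h4'⟩ := mem_edg.1 h2
  have e1 := nu_inj hu hu' (h3.trans h3'.symm)
  have e2 := nu_inj hv hv' (h4.trans h4'.symm)
  subst e1 e2
  rw [lL_code] at h
  rw [rL_code, adj_sep h] at h'
  exact absurd h' (by decide)

end Pool.Agent.Q224.EB
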