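import Pool.Agent.Q224.EB.Board

/-!
# Edge Blocking: if the machine does not accept, then Left does not win
-/

namespace Pool.Agent.Q224.EB

open Pool.Agent.NPC.ANN (Forces rl pm us up ok3 ok3_iff rl_mem pm_mem up_lt upd_take upd_nil
  upd_take_update)
open Pool.Agent.H820R2.SS

variable {M : ARM}

/-- The control token has left the control vertices and Right cannot be stopped. -/
def Free (M : ARM) (P : V → Bool) : Prop :=
  (∀ w, isC w = true → P w = false) ∧
    ((P .W0 = true ∧ P .W1 = false) ∨ (P .W0 = false ∧ P .W1 = true) ∨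
      (P .W0 = false ∧ P .W1 = false ∧ ∃ j, j < M.1.length ∧ P (.x j) = true ∧
        ∀ b, P (.y j b) = true))

/-- Positions with Left to move, at which Left cannot force a win. -/
inductive SA (M : ARM) : (V → Bool) → Prop
  | G {σ : ℕ → Bool} {P : V → Bool} (hP : At M .G (rs σ) P) (h : ¬ Der M.2.2 M.2.1 σ) : SA M P
  | U {r i k : ℕ} {σ : ℕ → Bool} {P : V → Bool} (hP : At M (.U r i k) (rs σ) P)
      (hk : ok3 M r i k = true)
      (h : ¬ Der M.2.2 (pm M r i).1 (upd σ ((us M r i).take k))) : SA M P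
  | SL {r i k : ℕ} {σ : ℕ → Bool} {P : V → Bool}
      (hP : At M (.S r i k) (Function.update (rs σ) (up M r i k).1 none) P)
      (hk : ok3 M r i k = true) (h0 : 0 < k)
      (h : ¬ Der M.2.2 (pm M r i).1 (upd σ ((us M r i).take k))) : SA M P
  | SR {r i k : ℕ} {σ : ℕ → Bool} {P : V → Bool} (hP : At M (.S r i k) (rs σ) P)
      (hk : ok3 M r i k = true) (h0 : 0 < k)
      (h : ¬ Der M.2.2 (pm M r i).1 (upd σ ((us M r i).take k))) : SA M P
  | F {P : V → Bool} (h : Free M P) : SA M P

/-- Positions with Right to move, at which Left cannot force a win. -/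
def SB (M : ARM) (P : V → Bool) : Prop :=
  ∃ u w, P u = true ∧ P w = false ∧ EE M false u w ∧ SA M (mv u w P)

theorem free_reply {P : V → Bool} (h : Free M P) : SB M P := by
  obtain ⟨hc, ⟨h0, h1⟩ | ⟨h0, h1⟩ | ⟨h0, h1, j, hj, hx, hy⟩⟩ := h
  · refine ⟨.W0, .W1, h0, h1, ⟨rfl, rfl, rfl⟩, .F ⟨fun w hw => ?_, Or.inr (Or.inl ⟨?_, ?_⟩)⟩⟩
    · rw [mv_apply, if_neg (isC_ne hw rfl), if_neg (isC_ne hw rfl)]
      exact hc w hw
    · rw [mv_apply, if_neg (by simp), if_pos rfl]
    · rw [mv_apply, if_pos rfl]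
  · refine ⟨.W1, .W0, h1, h0, ⟨rfl, rfl, rfl⟩, .F ⟨fun w hw => ?_, Or.inl ⟨?_, ?_⟩⟩⟩
    · rw [mv_apply, if_neg (isC_ne hw rfl), if_neg (isC_ne hw rfl)]
      exact hc w hw
    · rw [mv_apply, if_pos rfl]
    · rw [mv_apply, if_neg (by simp), if_pos rfl]
  · refine ⟨.x j, .W0, hx, h0, ⟨by simpa [ok] using hj, rfl, rfl⟩,
      .F ⟨fun w hw => ?_, Or.inl ⟨?_, ?_⟩⟩⟩
    · rw [mv_apply, if_neg (isC_ne hw rfl), if_neg (isC_ne hw rfl)]
      exact hc w hw
    · rw [mv_apply, if_pos rfl]
    · rw [mv_apply, if_neg (by simp), if_neg (by simp)]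
      exact h1

/-- Left's moves when the control token is gone -/
theorem free_left {P : V → Bool} (h : Free M P) {u w : V} (hu : P u = true) (hw : P w = false)
    (he : adjL M u w = true) : Free M (mv u w P) := by
  obtain ⟨hc, h⟩ := h
  have hcu : isC u = false := by
    by_contra hno
    rw [hc u (by simpa using hno)] at hu
    exact absurd hu (by decide)
  have hn : isC w = false ∧ u ≠ .W0 ∧ u ≠ .W1 ∧ w ≠ .W0 ∧ w ≠ .W1 := by
    cases u <;> cases w <;> simp_all [adjL, isC]
  obtain ⟨h1, h2, h3, h4, h5⟩ := hn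
  have e0 : mv u w P .W0 = P .W0 := by
    rw [mv_apply, if_neg (Ne.symm h4), if_neg (Ne.symm h2)]
  have e1 : mv u w P .W1 = P .W1 := by
    rw [mv_apply, if_neg (Ne.symm h5), if_neg (Ne.symm h3)]
  refine ⟨fun z hz => ?_, ?_⟩
  · rw [mv_apply, if_neg (isC_ne hz h1), if_neg (isC_ne hz hcu)]
    exact hc z hz
  · rw [e0, e1]
    rcases h with h | h | ⟨h6, h7, j, hj, hx, hy⟩
    · exact Or.inl h
    · exact Or.inr (Or.inl h)
    · refine Or.inr (Or.inr ⟨h6, h7, j, hj, ?_, fun b => ?_⟩)
      · rw [mv_apply]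
        split_ifs with h8 h9
        · rfl
        · exfalso
          subst h9
          cases w with
          | y j' b =>
            simp only [adjL, decide_eq_true_eq] at he
            subst he
            rw [hy b] at hw
            exact absurd hw (by decide)
          | _ => simp [adjL] at he
        · exact hx
      · rw [mv_apply]
        split_ifs with h8 h9
        · rfl
        · exfalso
          subst h9
          cases w with
          | x j' =>
            simp only [adjL, decide_eq_true_eq] at he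
            subst he
            rw [hx] at hw
            exact absurd hw (by decide)
          | _ => simp [adjL] at he
        · exact hy b

/-- A successful test: the control token fills the last vertex of a region. -/
theorem full {v : V} {f : ℕ → Option Bool} {P : V → Bool} (hP : At M v f P) (hv : isC v = true)
    (hok : ok M v = true) {j : ℕ} (hj : j < M.1.length) {w : V}
    (hw : (w = .x j ∧ f j = none ∧ adjR M v w = true) ∨
      ∃ b, w = .y j b ∧ f j = some (!b) ∧ adjR M v w = true) : SB M P := by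
  have hwc : isC w = false ∧ w ≠ .W0 ∧ w ≠ .W1 ∧ adjR M v w = true ∧ ok M w = true ∧
      P w = false := by
    rcases hw with ⟨rfl, h1, h2⟩ | ⟨b, rfl, h1, h2⟩
    · exact ⟨rfl, by simp, by simp, h2, by simpa [ok] using hj, by rw [hP.x j hj, h1]; rfl⟩
    · exact ⟨rfl, by simp, by simp, h2, by simpa [ok] using hj, by rw [hP.y j b hj, h1]; simp⟩
  obtain ⟨h1, h2, h3, h4, h5, h6⟩ := hwc
  refine ⟨v, w, hP.at hv, h6, ⟨hok, h5, by simpa [adj] using h4⟩,
    .F ⟨fun z hz => ?_, Or.inr (Or.inr ⟨?_, ?_, j, hj, ?_, fun b => ?_⟩)⟩⟩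
  · rw [mv_apply, if_neg (isC_ne hz h1)]
    split_ifs with h7
    · rfl
    · exact hP.off hz h7
  · rw [mv_apply, if_neg (Ne.symm h2), if_neg (isC_ne hv rfl).symm]
    exact hP.w0
  · rw [mv_apply, if_neg (Ne.symm h3), if_neg (isC_ne hv rfl).symm]
    exact hP.w1
  · rw [mv_apply]
    split_ifs with h7 h8
    · rfl
    · rw [← h8] at hv
      exact absurd hv (by simp [isC])
    · rcases hw with ⟨rfl, h9, -⟩ | ⟨b, rfl, h9, -⟩
      · exact absurd rfl h7
      · rw [hP.x j hj, h9]
        rfl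
  · rw [mv_apply]
    split_ifs with h7 h8
    · rfl
    · rw [← h8] at hv
      exact absurd hv (by simp [isC])
    · rcases hw with ⟨rfl, h9, -⟩ | ⟨b', rfl, h9, -⟩
      · rw [hP.y j b hj, h9]
        rfl
      · rw [hP.y j b hj, h9]
        have : b ≠ b' := by
          rintro rfl
          exact h7 rfl
        simpa using this.symm

/-- The control token goes to the haven. -/
theorem esc {v : V} {f : ℕ → Option Bool} {P : V → Bool} (hP : At M v f P) (hv : isC v = true)
    (hok : ok M v = true) (he : adjR M v .W0 = true) : SB M P := by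
  refine ⟨v, .W0, hP.at hv, hP.w0, ⟨hok, rfl, by simpa [adj] using he⟩,
    .F ⟨fun z hz => ?_, Or.inl ⟨?_, ?_⟩⟩⟩
  · rw [mv_apply, if_neg (isC_ne hz rfl)]
    split_ifs with h7
    · rfl
    · exact hP.off hz h7
  · rw [mv_apply, if_pos rfl]
  · rw [mv_apply, if_neg (by simp), if_neg (isC_ne hv rfl).symm]
    exact hP.w1

/-- Left blocks the haven in vain. -/
theorem block {v : V} {f : ℕ → Option Bool} {P : V → Bool} (hP : At M v f P)
    (hv : isC v = true) : SB M (mv v .W1 P) := by
  refine free_reply ⟨fun z hz => ?_, Or.inr (Or.inl ⟨?_, ?_⟩)⟩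
  · rw [mv_apply, if_neg (isC_ne hz rfl)]
    split_ifs with h7
    · rfl
    · exact hP.off hz h7
  · rw [mv_apply, if_neg (by simp), if_neg (isC_ne hv rfl).symm]
    exact hP.w0
  · rw [mv_apply, if_pos rfl]

/-- Left's moves. -/
theorem left_cases {v : V} {f : ℕ → Option Bool} {P : V → Bool} (hP : At M v f P) {u w : V}
    (hu : P u = true) (hw : P w = false) (he : EE M true u w) :
    At M v f (mv u w P) ∨
    (∃ j b, j < M.1.length ∧ f j = some b ∧ At M v (Function.update f j none) (mv u w P)) ∨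
    (∃ j b, j < M.1.length ∧ f j = none ∧
      At M v (Function.update f j (some b)) (mv u w P)) ∨
    (isC v = true ∧ w = .W1 ∧ u = v) ∨
    (isC v = true ∧ u = v ∧ ∃ r, w = .R r) := by
  obtain ⟨h1, h2, h3⟩ := he
  simp only [adj, cond_true] at h3
  by_cases hc : isC u = true
  · have huv : u = v := (hP.c u hc).1 hu
    subst huv
    have : w = .W1 ∨ ∃ r, w = .R r := by
      cases u <;> cases w <;> simp_all [adjL, isC]
    rcases this with h | h
    · exact Or.inr (Or.inr (Or.inr (Or.inl ⟨hc, h, rfl⟩)))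
    · exact Or.inr (Or.inr (Or.inr (Or.inr ⟨hc, rfl, h⟩)))
  · cases u with
    | l0 => exact Or.inl (step_pass hP h3 (Or.inl rfl))
    | l1 => exact Or.inl (step_pass hP h3 (Or.inr rfl))
    | x j =>
      cases w with
      | y j' b =>
        simp only [adjL, decide_eq_true_eq] at h3
        subst h3
        have hj : j < M.1.length := by simpa [ok] using h1
        rw [hP.y j b hj] at hw
        have hf : f j = some (!b) := by simpa using hw
        right; left
        refine ⟨j, !b, hj, hf, ?_⟩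
        have := step_lift hP hf
        rwa [Bool.not_not] at this
      | _ => simp [adjL] at h3
    | y j b =>
      cases w with
      | x j' =>
        simp only [adjL, decide_eq_true_eq] at h3
        subst h3
        have hj : j < M.1.length := by simpa [ok] using h1
        rw [hP.x j hj] at hw
        have hf : f j = none := by simpa using hw
        right; right; left
        refine ⟨j, !b, hj, hf, ?_⟩
        have := step_place hP hf (!b)
        rwa [Bool.not_not] at this
      | _ => simp [adjL] at h3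
    | _ => simp [isC, adjL] at h3 hc

/-- entering a rule -/
theorem enter_R (hM : ARMPr M) {r : ℕ} {σ : ℕ → Bool} {P : V → Bool} (hr : r < M.2.2.length)
    (hP : At M (.R r) (rs σ) P) (h : ¬ Der M.2.2 (rl M r).1 σ) : SB M P := by
  have hok : ok M (.R r) = true := by simpa [ok] using hr
  by_cases hg : ∀ g ∈ (rl M r).2.1, σ g.1 = g.2
  · by_cases hp : ∀ s ∈ (rl M r).2.2, Der M.2.2 s.1 (upd σ s.2)
    · exact absurd (.mk (rl M r) σ (rl_mem hr) hg hp) h
    · push Not at hp
      obtain ⟨s, hs, hs'⟩ := hp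
      obtain ⟨i, hi, hi'⟩ := List.getElem_of_mem hs
      have hpm : pm M r i = s := by
        unfold pm
        rw [List.getD_eq_getElem _ _ hi, hi']
      have hk : ok3 M r i (us M r i).length = true := by
        rw [ok3_iff]
        exact ⟨hr, hi, le_rfl⟩
      refine ⟨.R r, .U r i (us M r i).length, hP.at rfl, hP.off rfl (by simp),
        ⟨hok, by simpa [ok] using hk, by simp [adj, adjR]⟩, .U (step_ctl hP rfl rfl) hk ?_⟩
      rw [List.take_length]
      unfold us
      rw [hpm]
      exact hs'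
  · push Not at hg
    obtain ⟨g, hg1, hg2⟩ := hg
    have hj := (hM _ (rl_mem hr)).1 g hg1
    refine full hP rfl hok hj (w := .y g.1 g.2) (Or.inr ⟨g.2, rfl, ?_, ?_⟩)
    · rw [Option.some.injEq]
      revert hg2
      cases σ g.1 <;> cases g.2 <;> simp
    · simpa [adjR] using hg1

/-- the region is at rest and Right is to move -/
theorem replyS {r i k : ℕ} {σ : ℕ → Bool} {P : V → Bool} (hM : ARMPr M)
    (hP : At M (.S r i k) (rs σ) P) (hk : ok3 M r i k = true) (h0 : 0 < k)
    (h : ¬ Der M.2.2 (pm M r i).1 (upd σ ((us M r i).take k))) : SB M P := by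
  have hj := up_lt hM hk h0
  by_cases hb : σ (up M r i k).1 = (up M r i k).2
  · obtain ⟨k', rfl⟩ : ∃ k', k = k' + 1 := ⟨k - 1, by omega⟩
    rw [upd_take hk h0, ← hb, Function.update_eq_self, Nat.add_sub_cancel] at h
    exact ⟨.S r i (k' + 1), .U r i k', hP.at rfl, hP.off rfl (by simp),
      ⟨okS hk h0, okU (ok3_pred hk), by simp [adj, adjR]⟩, .U (step_ctl hP rfl rfl) (ok3_pred hk) h⟩
  · refine full hP rfl (okS hk h0) hj (w := .y (up M r i k).1 (up M r i k).2)
      (Or.inr ⟨_, rfl, ?_, ?_⟩)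
    · rw [Option.some.injEq]
      revert hb
      cases σ (up M r i k).1 <;> cases (up M r i k).2 <;> simp
    · simp [adjR]

/-- a lifted register while Right is to move at `S` -/
theorem replyS' {r i k : ℕ} {f : ℕ → Option Bool} {P : V → Bool}
    (hP : At M (.S r i k) f P) (hk : ok3 M r i k = true) (h0 : 0 < k) {j : ℕ}
    (hj : j < M.1.length) (hf : f j = none) : SB M P :=
  full hP rfl (okS hk h0) hj (w := .x j) (Or.inl ⟨rfl, hf, by simp [adjR]⟩)

theorem closeA (hM : ARMPr M) {P : V → Bool} (h : SA M P) {u w : V} (hu : P u = true)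
    (hw : P w = false) (he : EE M true u w) : SB M (mv u w P) := by
  have hea := he.2.2
  simp only [adj, cond_true] at hea
  cases h with
  | @G σ _ hP h =>
    rcases left_cases hP hu hw he with h1 | ⟨j, b, hj, hf, h1⟩ | ⟨j, b, hj, hf, h1⟩ |
      ⟨hv, rfl, rfl⟩ | ⟨hv, rfl, r, rfl⟩
    · exact esc h1 rfl rfl rfl
    · exact esc h1 rfl rfl rfl
    · simp at hf
    · exact block hP rfl
    · simp only [adjL, decide_eq_true_eq] at hea
      refine enter_R hM (by simpa [ok] using he.2.1) (step_ctl hP rfl rfl) ?_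
      rw [hea]
      exact h
  | @U r i k σ _ hP hk h =>
    by_cases h0 : k = 0
    · subst h0
      rcases left_cases hP hu hw he with h1 | ⟨j, b, hj, hf, h1⟩ | ⟨j, b, hj, hf, h1⟩ |
        ⟨hv, rfl, rfl⟩ | ⟨hv, rfl, r', rfl⟩
      · exact esc h1 rfl (okU hk) rfl
      · exact esc h1 rfl (okU hk) rfl
      · simp at hf
      · exact block hP rfl
      · simp only [adjL, Bool.and_eq_true, decide_eq_true_eq] at hea
        refine enter_R hM (by simpa [ok] using he.2.1) (step_ctl hP rfl rfl) ?_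
        rw [hea.2]
        rwa [List.take_zero, upd_nil] at h
    · have h0' : 0 < k := Nat.pos_of_ne_zero h0
      rcases left_cases hP hu hw he with h1 | ⟨j, b, hj, hf, h1⟩ | ⟨j, b, hj, hf, h1⟩ |
        ⟨hv, rfl, rfl⟩ | ⟨hv, rfl, r', rfl⟩
      · exact ⟨.U r i k, .S r i k, h1.at rfl, h1.off rfl (by simp),
          ⟨okU hk, okS hk h0', by simp [adj, adjR]⟩, .SR (step_ctl h1 rfl rfl) hk h0' h⟩
      · by_cases hjj : j = (up M r i k).1
        · subst hjj
          exact ⟨.U r i k, .S r i k, h1.at rfl, h1.off rfl (by simp),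
            ⟨okU hk, okS hk h0', by simp [adj, adjR]⟩, .SL (step_ctl h1 rfl rfl) hk h0' h⟩
        · exact full h1 rfl (okU hk) hj (w := .x j)
            (Or.inl ⟨rfl, by simp, by simp [adjR, h0', hjj]⟩)
      · simp at hf
      · exact block hP rfl
      · simp [adjL, h0] at hea
  | @SL r i k σ _ hP hk h0 h =>
    have hj0 := up_lt hM hk h0
    rcases left_cases hP hu hw he with h1 | ⟨j, b, hj, hf, h1⟩ | ⟨j, b, hj, hf, h1⟩ |
      ⟨hv, rfl, rfl⟩ | ⟨hv, rfl, r', rfl⟩
    · exact replyS' h1 hk h0 hj0 (Function.update_self ..)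
    · exact replyS' h1 hk h0 hj (Function.update_self ..)
    · have hjj : j = (up M r i k).1 := by
        by_contra hno
        rw [Function.update_of_ne hno] at hf
        simp at hf
      subst hjj
      rw [lift_update] at h1
      refine replyS hM h1 hk h0 ?_
      rw [upd_take_update hk h0]
      exact h
    · exact block hP rfl
    · simp [adjL] at hea
  | @SR r i k σ _ hP hk h0 h =>
    rcases left_cases hP hu hw he with h1 | ⟨j, b, hj, hf, h1⟩ | ⟨j, b, hj, hf, h1⟩ |
      ⟨hv, rfl, rfl⟩ | ⟨hv, rfl, r', rfl⟩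
    · exact replyS hM h1 hk h0 h
    · exact replyS' h1 hk h0 hj (Function.update_self ..)
    · simp at hf
    · exact block hP rfl
    · simp [adjL] at hea
  | F h => exact free_reply (free_left h hu hw hea)

theorem safe (hM : ARMPr M) : (∀ P, SA M P → ¬ Win M P) ∧ ∀ P, SB M P → ¬ Lose M P := by
  have h1 : ∀ s : Pos V, (s.1 = true ∧ SA M s.2) → ∀ s', Gm M s s' →
      Forces (Gm M) true s' ∨ (s'.1 = false ∧ SB M s'.2) := by
    rintro ⟨t, P⟩ ⟨rfl, h⟩ s' ⟨u, w, hu, hw, he, rfl⟩
    exact Or.inr ⟨rfl, closeA hM h hu hw he⟩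
  have h2 : ∀ s : Pos V, (s.1 = false ∧ SB M s.2) → ∃ s', Gm M s s' ∧ (s'.1 = true ∧ SA M s'.2) := by
    rintro ⟨t, P⟩ ⟨rfl, u, w, hu, hw, he, h⟩
    exact ⟨_, ⟨u, w, hu, hw, he, rfl⟩, rfl, h⟩
  exact ⟨fun P h => Forces.not_win_of h1 h2 ⟨rfl, h⟩, fun P h => Forces.not_lose_of h1 h2 ⟨rfl, h⟩⟩

/-- exactly one token on the two private vertices of Left -/
def Xr (P : V → Bool) : Prop := P .l0 ≠ P .l1

theorem Xr_mv {P : V → Bool} (h : Xr P) {b : Bool} {u w : V} (hu : P u = true) (hw : P w = false)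
    (he : EE M b u w) : Xr (mv u w P) := by
  have h3 := he.2.2
  unfold Xr at h ⊢
  have hcase : (u = .l0 ∧ w = .l1) ∨ (u = .l1 ∧ w = .l0) ∨
      (u ≠ .l0 ∧ u ≠ .l1 ∧ w ≠ .l0 ∧ w ≠ .l1) := by
    cases b <;> cases u <;> cases w <;> simp_all [adj, adjL, adjR]
  rcases hcase with ⟨rfl, rfl⟩ | ⟨rfl, rfl⟩ | ⟨h4, h5, h6, h7⟩
  · simp
  · simp
  · rw [mv_apply, mv_apply, if_neg (Ne.symm h6), if_neg (Ne.symm h4), if_neg (Ne.symm h7),
      if_neg (Ne.symm h5)]
    exact h

/-- Left never loses. -/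
theorem never {P : V → Bool} (h : Xr P) : ¬ Forces (Gm M) false (true, P) ∧
    ¬ Forces (Gm M) true (false, P) := by
  have h1 : ∀ s : Pos V, (s.1 = false ∧ Xr s.2) → ∀ s', Gm M s s' →
      Forces (Gm M) true s' ∨ (s'.1 = true ∧ Xr s'.2) := by
    rintro ⟨t, P⟩ ⟨rfl, h⟩ s' ⟨u, w, hu, hw, he, rfl⟩
    exact Or.inr ⟨rfl, Xr_mv h hu hw he⟩
  have h2 : ∀ s : Pos V, (s.1 = true ∧ Xr s.2) → ∃ s', Gm M s s' ∧ (s'.1 = false ∧ Xr s'.2) := by
    rintro ⟨t, P⟩ ⟨rfl, h⟩
    have h3 : (P .l0 = true ∧ P .l1 = false) ∨ (P .l1 = true ∧ P .l0 = false) := by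
      unfold Xr at h
      simp only at h
      revert h
      cases P .l0 <;> cases P .l1 <;> simp
    rcases h3 with ⟨h3, h4⟩ | ⟨h3, h4⟩
    · have he : EE M true .l0 .l1 := ⟨rfl, rfl, rfl⟩
      exact ⟨_, ⟨.l0, .l1, h3, h4, he, rfl⟩, rfl, Xr_mv h h3 h4 he⟩
    · have he : EE M true .l1 .l0 := ⟨rfl, rfl, rfl⟩
      exact ⟨_, ⟨.l1, .l0, h3, h4, he, rfl⟩, rfl, Xr_mv h h3 h4 he⟩
  exact ⟨Forces.not_lose_of h1 h2 ⟨rfl, h⟩, Forces.not_win_of h1 h2 ⟨rfl, h⟩⟩

/-- Left to move at `G`. -/
theorem win_G (hM : ARMPr M) {σ : ℕ → Bool} {P : V → Bool} (hP : At M .G (rs σ) P) :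
    Win M P ↔ Der M.2.2 M.2.1 σ := by
  constructor
  · intro h
    by_contra hno
    exact (safe hM).1 P (.G hP hno) h
  · intro h
    exact acc hM h _ _ (Or.inl ⟨rfl, rfl⟩) hP

/-- Right to move at `A0`. -/
theorem lose_A0 (hM : ARMPr M) {σ : ℕ → Bool} {P : V → Bool} (hP : At M .A0 (rs σ) P) :
    Lose M P ↔ Der M.2.2 M.2.1 σ := by
  constructor
  · intro h
    by_contra hno
    exact (safe hM).2 P ⟨.A0, .G, hP.at rfl, hP.off rfl (by simp), ⟨rfl, rfl, rfl⟩,
      .G (step_ctl hP rfl rfl) hno⟩ h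
  · intro h
    refine right_lose hP rfl rfl rfl fun w hw he => ?_
    have he2 := he.2.2
    simp only [adj, cond_false] at he2
    cases w with
    | G => exact acc hM h _ _ (Or.inl ⟨rfl, rfl⟩) (step_ctl hP rfl rfl)
    | _ => simp [adjR] at he2

end Pool.Agent.Q224.EB
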